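import Pool.Agent.Run7.h370.RA.Lin

/-!
# Automorphisms and the classes of vertices of maximal degree
-/

set_option autoImplicit false

namespace Run7.h370.RA

section aut

variable {V N : Type} [Group N] [Finite V] {Γ : SimpleGraph V} {x : V → N}

theorem lin_ext {L L' : (V → ℚ) →ₗ[ℚ] (V → ℚ)} (hL : ∀ v, L (ev v) = L' (ev v)) : L = L' := by
  have h1 : ∀ f : V → ℚ, f ∈ LinearMap.eqLocus L L' := by
    intro f
    have h2 : SV (Set.univ : Set V) ≤ LinearMap.eqLocus L L' := by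
      rw [SV_span, Submodule.span_le]
      rintro _ ⟨v, _, rfl⟩
      exact hL v
    exact h2 (fun w hw => absurd (Set.mem_univ w) hw)
  exact LinearMap.ext h1

theorem Raag.exists_lin (h : Raag Γ x) (φ : N →* N) : ∃ L : (V → ℚ) →ₗ[ℚ] (V → ℚ),
    ∀ g, L (h.cl g) = h.cl (φ g) := by
  classical
  let _ := Fintype.ofFinite V
  obtain ⟨L, hL⟩ : ∃ L : (V → ℚ) →ₗ[ℚ] (V → ℚ), ∀ v, L (ev v) = h.cl (φ (x v)) := by
    refine ⟨(Pi.basisFun ℚ V).constr ℚ (fun v => h.cl (φ (x v))), fun v => ?_⟩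
    have h1 : (ev v : V → ℚ) = Pi.basisFun ℚ V v := by
      rw [Pi.basisFun_apply]
      rfl
    rw [h1, Module.Basis.constr_basis]
  refine ⟨L, ?_⟩
  let f : N →* Multiplicative (V → ℚ) := MonoidHom.mk' (fun g => Multiplicative.ofAdd (L (h.cl g))) (by
    intro a b
    rw [h.cl_mul, map_add]
    rfl)
  let f' : N →* Multiplicative (V → ℚ) := MonoidHom.mk' (fun g => Multiplicative.ofAdd (h.cl (φ g))) (by
    intro a b
    rw [map_mul, h.cl_mul]
    rfl)
  have hff : f = f' := by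
    apply h.hom_eq
    intro v
    show Multiplicative.ofAdd (L (h.cl (x v))) = Multiplicative.ofAdd (h.cl (φ (x v)))
    rw [h.cl_x, hL]
  intro g
  exact congrArg Multiplicative.toAdd (DFunLike.congr_fun hff g)

/-- the map on homology -/
noncomputable def Raag.la (h : Raag Γ x) (φ : MulAut N) : (V → ℚ) →ₗ[ℚ] (V → ℚ) :=
  (h.exists_lin φ.toMonoidHom).choose

theorem Raag.la_cl (h : Raag Γ x) (φ : MulAut N) (g : N) : h.la φ (h.cl g) = h.cl (φ g) :=
  (h.exists_lin φ.toMonoidHom).choose_spec g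

theorem Raag.la_ev (h : Raag Γ x) (φ : MulAut N) (v : V) : h.la φ (ev v) = h.cl (φ (x v)) := by
  rw [← h.cl_x, h.la_cl]

theorem Raag.la_mul (h : Raag Γ x) (φ ψ : MulAut N) : h.la (φ * ψ) = (h.la φ).comp (h.la ψ) := by
  apply lin_ext
  intro v
  rw [LinearMap.comp_apply, h.la_ev, h.la_ev, h.la_cl]
  rfl

theorem Raag.la_one (h : Raag Γ x) : h.la 1 = LinearMap.id := by
  apply lin_ext
  intro v
  rw [h.la_ev, MulAut.one_apply, h.cl_x]
  rfl

theorem Raag.la_inv_la (h : Raag Γ x) (φ : MulAut N) (f : V → ℚ) : h.la φ⁻¹ (h.la φ f) = f := by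
  rw [← LinearMap.comp_apply, ← h.la_mul, inv_mul_cancel, h.la_one]
  rfl

theorem Raag.la_la_inv (h : Raag Γ x) (φ : MulAut N) (f : V → ℚ) : h.la φ (h.la φ⁻¹ f) = f := by
  rw [← LinearMap.comp_apply, ← h.la_mul, mul_inv_cancel, h.la_one]
  rfl

theorem Raag.la_inj (h : Raag Γ x) (φ : MulAut N) : Function.Injective (h.la φ) :=
  Function.LeftInverse.injective (h.la_inv_la φ)

theorem Raag.Z_map (h : Raag Γ x) (φ : MulAut N) (g : N) :
    (h.Z g).map (h.la φ) ≤ h.Z (φ g) := by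
  rw [Submodule.map_le_iff_le_comap]
  conv_lhs => unfold Raag.Z
  rw [Submodule.span_le]
  rintro _ ⟨k, hk, rfl⟩
  show h.la φ (h.cl k) ∈ h.Z (φ g)
  rw [h.la_cl]
  exact h.mem_Z (by rw [← map_mul, hk, map_mul])

theorem Raag.Z_finrank (h : Raag Γ x) (φ : MulAut N) (g : N) :
    Module.finrank ℚ (h.Z g) ≤ Module.finrank ℚ (h.Z (φ g)) := by
  have h1 := Submodule.finrank_mono (h.Z_map φ g)
  have h2 := (Submodule.equivMapOfInjective (h.la φ) (h.la_inj φ) (h.Z g)).finrank_eq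
  omega

omit [Finite V] in
theorem self_notMem_lk (v : V) : v ∉ lk Γ v := fun h => Γ.loopless.irrefl v h

theorem Raag.Z_vertex (h : Raag Γ x) (v : V) : (lk Γ v).ncard + 1 ≤ Module.finrank ℚ (h.Z (x v)) := by
  have h1 : SV (insert v (lk Γ v)) ≤ h.Z (x v) := by
    rw [SV_span, Submodule.span_le]
    rintro _ ⟨u, hu, rfl⟩
    rw [← h.cl_x]
    rcases hu with rfl | hu
    · exact h.mem_Z rfl
    · exact h.mem_Z (h.comm v u hu)
  have h2 := Submodule.finrank_mono h1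
  rw [finrank_SV, Set.ncard_insert_of_notMem (self_notMem_lk v)] at h2
  exact h2

theorem Raag.Z_pair (h : Raag Γ x) {v w : V} (hvw : Tw Γ v w) (hne : v ≠ w) :
    (lk Γ v).ncard + 1 ≤ Module.finrank ℚ (h.Z (x v * x w)) := by
  have hcom : ∀ u, Γ.Adj v u → u ≠ w → x v * x w * x u = x u * (x v * x w) := by
    intro u hu huw
    have h1 : Γ.Adj w u := (hvw u hu.ne' huw).1 hu
    rw [mul_assoc, h.comm w u h1, ← mul_assoc, h.comm v u hu, mul_assoc]
  by_cases hadj : Γ.Adj v w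
  · have hc := h.comm v w hadj
    have h1 : SV (insert v (lk Γ v)) ≤ h.Z (x v * x w) := by
      rw [SV_span, Submodule.span_le]
      rintro _ ⟨u, hu, rfl⟩
      rw [← h.cl_x]
      rcases hu with rfl | hu
      · apply h.mem_Z
        rw [mul_assoc, ← hc]
      · by_cases huw : u = w
        · subst huw
          apply h.mem_Z
          rw [← mul_assoc, ← hc]
        · exact h.mem_Z (hcom u hu huw)
    have h2 := Submodule.finrank_mono h1
    rw [finrank_SV, Set.ncard_insert_of_notMem (self_notMem_lk v)] at h2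
    exact h2
  · have h1 : SV (lk Γ v) ≤ h.Z (x v * x w) := by
      rw [SV_span, Submodule.span_le]
      rintro _ ⟨u, hu, rfl⟩
      rw [← h.cl_x]
      apply h.mem_Z
      apply hcom u hu
      rintro rfl
      exact hadj hu
    have h2 : SV (lk Γ v) < h.Z (x v * x w) := by
      refine lt_of_le_of_ne h1 ?_
      intro h3
      have h4 : h.cl (x v * x w) ∈ h.Z (x v * x w) := h.mem_Z rfl
      rw [← h3, h.cl_mul, h.cl_x, h.cl_x, mem_SV] at h4
      have h5 := h4 v (fun h => Γ.loopless.irrefl v h)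
      rw [Pi.add_apply, ev_same, ev_ne hne, add_zero] at h5
      exact one_ne_zero h5
    have h3 := Submodule.finrank_lt_finrank_of_lt h2
    rw [finrank_SV] at h3
    exact h3

omit [Finite V] in
theorem Raag.x_ne (h : Raag Γ x) {g : N} (hg : h.cl g ≠ 0) : g ≠ 1 := by
  rintro rfl
  exact hg h.cl_one

omit [Finite V] in
theorem ev_ne_zero (v : V) : (ev v : V → ℚ) ≠ 0 := by
  intro h
  have := congrFun h v
  rw [ev_same] at this
  exact one_ne_zero this

/-- the subspaces of the classes of maximal degree -/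
def SS (Γ : SimpleGraph V) (D : ℕ) : Set (Submodule ℚ (V → ℚ)) :=
  {P | ∃ s, (lk Γ s).ncard + 1 = D ∧ P = SV (tcl Γ s)}

theorem SS_finite (D : ℕ) : (SS Γ D).Finite := by
  apply (Set.finite_range (fun s => SV (tcl Γ s))).subset
  rintro _ ⟨s, _, rfl⟩
  exact ⟨s, rfl⟩

omit [Finite V] in
theorem lk_ncard {s w : V} (h : Tw Γ s w) : (lk Γ s).ncard = (lk Γ w).ncard := by
  classical
  -- the transposition of `s` and `w` exchanges the links
  have h1 : lk Γ w = (Equiv.swap s w) '' lk Γ s := by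
    ext u
    rw [Equiv.image_eq_preimage_symm, Equiv.symm_swap, Set.mem_preimage]
    show Γ.Adj w u ↔ Γ.Adj s (Equiv.swap s w u)
    by_cases h2 : u = s
    · subst h2
      rw [Equiv.swap_apply_left, Γ.adj_comm]
    · by_cases h3 : u = w
      · subst h3
        rw [Equiv.swap_apply_right]
        exact ⟨fun h => absurd h (Γ.loopless.irrefl _), fun h => absurd h (Γ.loopless.irrefl _)⟩
      · rw [Equiv.swap_apply_of_ne_of_ne h2 h3]
        exact (h u h2 h3).symm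
  rw [h1, Set.ncard_image_of_injective _ (Equiv.swap s w).injective]

/-- an automorphism maps a class of maximal degree to another one, on homology -/
theorem Raag.class_le (h : Raag Γ x) {D : ℕ} (hD : ∀ v, (lk Γ v).ncard + 1 ≤ D) (φ : MulAut N)
    {v : V} (hv : (lk Γ v).ncard + 1 = D) :
    ∃ s, (lk Γ s).ncard + 1 = D ∧ ∀ w ∈ tcl Γ v, h.la φ (ev w) ∈ SV (tcl Γ s) := by
  have hone : ∀ w, (lk Γ w).ncard + 1 = D → ∃ s, (lk Γ s).ncard + 1 = D ∧
      h.la φ (ev w) ∈ SV (tcl Γ s) := by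
    intro w hw
    have h1 : h.cl (φ (x w)) ≠ 0 := by
      rw [← h.la_ev]
      intro h2
      exact ev_ne_zero w (h.la_inj φ (h2.trans (map_zero _).symm))
    obtain ⟨s, hs, hc⟩ := h.main_cent hD (h.x_ne h1) (by
      have := h.Z_vertex w
      have := h.Z_finrank φ (x w)
      omega)
    refine ⟨s, hs, ?_⟩
    rw [h.la_ev]
    exact h.cl_CI hc
  obtain ⟨s, hs, hvs⟩ := hone v hv
  refine ⟨s, hs, ?_⟩
  intro w hw
  by_cases hvw : v = w
  · rw [← hvw]; exact hvs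
  have htw : Tw Γ v w := hw
  have hw' : (lk Γ w).ncard + 1 = D := by rw [← lk_ncard htw]; exact hv
  obtain ⟨t, ht, hwt⟩ := hone w hw'
  have ha : h.la φ (ev v) ≠ 0 := fun h2 => ev_ne_zero v (h.la_inj φ (h2.trans (map_zero _).symm))
  have hb : h.la φ (ev w) ≠ 0 := fun h2 => ev_ne_zero w (h.la_inj φ (h2.trans (map_zero _).symm))
  by_cases hst : tcl Γ s = tcl Γ t
  · rw [hst]; exact hwt
  exfalso
  have hdisj : ∀ u, u ∈ tcl Γ s → u ∉ tcl Γ t := fun u h1 h2 => hst (tcl_eq_of_mem h1 h2)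
  have hcl : h.cl (φ (x v * x w)) = h.la φ (ev v) + h.la φ (ev w) := by
    rw [map_mul, h.cl_mul, h.la_ev, h.la_ev]
  obtain ⟨i, hi⟩ : ∃ i, h.la φ (ev v) i ≠ 0 := by
    by_contra hc
    push Not at hc
    exact ha (funext hc)
  obtain ⟨j, hj⟩ : ∃ j, h.la φ (ev w) j ≠ 0 := by
    by_contra hc
    push Not at hc
    exact hb (funext hc)
  have his : i ∈ tcl Γ s := by
    by_contra hc
    exact hi (hvs i hc)
  have hjt : j ∈ tcl Γ t := by
    by_contra hc
    exact hj (hwt j hc)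
  have hi' : h.la φ (ev w) i = 0 := hwt i (hdisj i his)
  have hj' : h.la φ (ev v) j = 0 := hvs j (fun h => hdisj j h hjt)
  have hne : h.cl (φ (x v * x w)) ≠ 0 := by
    intro h0
    rw [hcl] at h0
    have := congrFun h0 i
    rw [Pi.add_apply, hi', add_zero] at this
    exact hi this
  obtain ⟨r, _, hc⟩ := h.main_cent hD (h.x_ne hne) (by
    have := h.Z_pair htw hvw
    have := h.Z_finrank φ (x v * x w)
    omega)
  have hr := h.cl_CI hc
  rw [hcl] at hr
  have hir : i ∈ tcl Γ r := by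
    by_contra hc
    have := hr i hc
    rw [Pi.add_apply, hi', add_zero] at this
    exact hi this
  have hjr : j ∈ tcl Γ r := by
    by_contra hc
    have := hr j hc
    rw [Pi.add_apply, hj', zero_add] at this
    exact hj this
  exact hst ((tcl_eq_of_mem his hir).trans (tcl_eq_of_mem hjt hjr).symm)

theorem Raag.map_le (h : Raag Γ x) {D : ℕ} (hD : ∀ v, (lk Γ v).ncard + 1 ≤ D) (φ : MulAut N)
    {P : Submodule ℚ (V → ℚ)} (hP : P ∈ SS Γ D) : ∃ P' ∈ SS Γ D, P.map (h.la φ) ≤ P' := by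
  obtain ⟨v, hv, rfl⟩ := hP
  obtain ⟨s, hs, hc⟩ := h.class_le hD φ hv
  refine ⟨SV (tcl Γ s), ⟨s, hs, rfl⟩, ?_⟩
  rw [Submodule.map_le_iff_le_comap]
  conv_lhs => rw [SV_span]
  rw [Submodule.span_le]
  rintro _ ⟨w, hw, rfl⟩
  exact hc w hw

omit [Finite V] in
theorem SS_eq_of_le {D : ℕ} {P P' : Submodule ℚ (V → ℚ)} (hP : P ∈ SS Γ D) (hP' : P' ∈ SS Γ D)
    (hle : P ≤ P') : P = P' := by
  obtain ⟨s, _, rfl⟩ := hP
  obtain ⟨t, _, rfl⟩ := hP'
  rw [SV_le_iff] at hle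
  rw [tcl_eq_of_mem (mem_tcl_self s) (hle (mem_tcl_self s))]

theorem Raag.map_mem (h : Raag Γ x) {D : ℕ} (hD : ∀ v, (lk Γ v).ncard + 1 ≤ D) (φ : MulAut N)
    {P : Submodule ℚ (V → ℚ)} (hP : P ∈ SS Γ D) : P.map (h.la φ) ∈ SS Γ D := by
  obtain ⟨P', hP', h1⟩ := h.map_le hD φ hP
  obtain ⟨P'', hP'', h2⟩ := h.map_le hD φ⁻¹ hP'
  have hid : ∀ R : Submodule ℚ (V → ℚ), (R.map (h.la φ)).map (h.la φ⁻¹) = R := by
    intro R
    rw [← Submodule.map_comp, ← h.la_mul, inv_mul_cancel, h.la_one, Submodule.map_id]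
  have hid' : ∀ R : Submodule ℚ (V → ℚ), (R.map (h.la φ⁻¹)).map (h.la φ) = R := by
    intro R
    rw [← Submodule.map_comp, ← h.la_mul, mul_inv_cancel, h.la_one, Submodule.map_id]
  have h3 : P ≤ P'' := by
    rw [← hid P]
    exact (Submodule.map_mono h1).trans h2
  have h4 := SS_eq_of_le hP hP'' h3
  rw [← h4] at h2
  have h5 : P' ≤ P.map (h.la φ) := by
    rw [← hid' P']
    exact Submodule.map_mono h2
  rw [le_antisymm h1 h5]
  exact hP'

theorem Raag.map_pow (h : Raag Γ x) {D : ℕ} (hD : ∀ v, (lk Γ v).ncard + 1 ≤ D) (φ : MulAut N)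
    {P : Submodule ℚ (V → ℚ)} (hP : P ∈ SS Γ D) : ∃ k : ℕ, 0 < k ∧ P.map (h.la (φ ^ k)) = P := by
  obtain ⟨i, j, hij, heq⟩ := Set.Finite.exists_lt_map_eq_of_forall_mem
    (f := fun i : ℕ => P.map (h.la (φ ^ i))) (fun i => h.map_mem hD (φ ^ i) hP) (SS_finite D)
  refine ⟨j - i, Nat.sub_pos_of_lt hij, ?_⟩
  have h1 : φ ^ (j - i) = (φ ^ i)⁻¹ * φ ^ j := by
    rw [eq_inv_mul_iff_mul_eq, ← pow_add]
    congr 1
    omega
  have heq' : P.map (h.la (φ ^ i)) = P.map (h.la (φ ^ j)) := heq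
  rw [h1, h.la_mul, Submodule.map_comp, ← heq', ← Submodule.map_comp, ← h.la_mul,
    inv_mul_cancel, h.la_one, Submodule.map_id]

/-- elements of the class are mapped to conjugates of elements of the parabolic subgroup -/
theorem Raag.class_CI (h : Raag Γ x) {D : ℕ} (hD : ∀ v, (lk Γ v).ncard + 1 ≤ D) (φ : MulAut N)
    {s : V} (hs : (lk Γ s).ncard + 1 = D) (hφ : (SV (tcl Γ s)).map (h.la φ) = SV (tcl Γ s))
    {v : V} (hv : v ∈ tcl Γ s) : CI x (tcl Γ s) (φ (x v)) := by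
  have hv' : (lk Γ v).ncard + 1 = D := by rw [← lk_ncard hv]; exact hs
  have h1 : h.cl (φ (x v)) ≠ 0 := by
    rw [← h.la_ev]
    intro h2
    exact ev_ne_zero v (h.la_inj φ (h2.trans (map_zero _).symm))
  obtain ⟨t, ht, hc⟩ := h.main_cent hD (h.x_ne h1) (by
    have := h.Z_vertex v
    have := h.Z_finrank φ (x v)
    omega)
  have h2 := h.cl_CI hc
  have h3 : h.cl (φ (x v)) ∈ SV (tcl Γ s) := by
    rw [← hφ, ← h.la_ev]
    exact Submodule.mem_map_of_mem (ev_mem hv)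
  obtain ⟨i, hi⟩ : ∃ i, h.cl (φ (x v)) i ≠ 0 := by
    by_contra hc
    push Not at hc
    exact h1 (funext hc)
  have h4 : i ∈ tcl Γ t := by
    by_contra hc
    exact hi (h2 i hc)
  have h5 : i ∈ tcl Γ s := by
    by_contra hc
    exact hi (h3 i hc)
  rw [tcl_eq_of_mem h5 h4]
  exact hc

/-- **some class of twins is preserved by a power of each automorphism** -/
theorem Raag.invariant [Nonempty V] (h : Raag Γ x) : ∃ s : V, ∀ φ : MulAut N, ∃ k : ℕ, 0 < k ∧
    ∀ v ∈ tcl Γ s, CI x (tcl Γ s) ((φ ^ k) (x v)) ∧ CI x (tcl Γ s) ((φ ^ k)⁻¹ (x v)) := by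
  classical
  obtain ⟨s, hs⟩ : ∃ s : V, ∀ v, (lk Γ v).ncard ≤ (lk Γ s).ncard :=
    Finite.exists_max (fun v => (lk Γ v).ncard)
  have hD : ∀ v, (lk Γ v).ncard + 1 ≤ (lk Γ s).ncard + 1 := fun v => by
    have := hs v
    omega
  refine ⟨s, fun φ => ?_⟩
  obtain ⟨k, hk, hφ⟩ := h.map_pow hD φ (P := SV (tcl Γ s)) ⟨s, rfl, rfl⟩
  refine ⟨k, hk, fun v hv => ⟨h.class_CI hD _ rfl hφ hv, h.class_CI hD _ rfl ?_ hv⟩⟩
  conv_lhs => rw [← hφ]
  rw [← Submodule.map_comp, ← h.la_mul, inv_mul_cancel, h.la_one, Submodule.map_id]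

end aut

end Run7.h370.RA
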