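import Pool.Agent.Run7.h370.RA.Aut
import Pool.Agent.Q30.FJ.GPk
import Pool.Agent.R684.FP.Free

/-!
# Extensions: abelian kernels, and kernels which are free products of abelian groups
-/

set_option autoImplicit false

namespace Run7.h370.RA

open Pool.Agent.Y110.FJ Q30.FJ
open Pool.Agent.R941.FJ (C_equiv C_le)

variable {C : ∀ (G : Type) [Group G], Prop}

/-- the abelian-by-cyclic groups are in the class -/
def AbC (C : ∀ (G : Type) [Group G], Prop) : Prop :=
  ∀ (B : Type) [CommGroup B] (α : MulAut B), C (B ⋊[zpowersHom (MulAut B) α] Multiplicative ℤ)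

/-- extensions with abelian kernel -/
theorem abel_ext (hC : ClosedE C) (hA : AbC C) {G : Type} [Group G] (B : Subgroup G) [B.Normal]
    (hB : ∀ a ∈ B, ∀ b ∈ B, a * b = b * a) (hQ : C (G ⧸ B)) : C G := by
  refine crit C hC G B hQ ?_
  intro g E hE hEB
  have hcl : Subgroup.closure (E ∪ (fun x => g * x * g⁻¹) '' E) ≤ B := by
    rw [Subgroup.closure_le]
    rintro x (hx | ⟨y, hy, rfl⟩)
    · exact hEB hx
    · exact Subgroup.Normal.conj_mem inferInstance y (hEB hy) g
  let cg : CommGroup B := { Subgroup.toGroup B with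
    mul_comm := fun a b => Subtype.ext (hB a a.2 b b.2) }
  have h1 := @hA B cg (MulAut.conjNormal g)
  refine ⟨_, inferInstance, SemidirectProduct.inl.comp (Subgroup.inclusion hcl),
    SemidirectProduct.inr (Multiplicative.ofAdd (1 : ℤ)), h1,
    SemidirectProduct.inl_injective.comp (Subgroup.inclusion_injective hcl), ?_⟩
  intro x y _ hxy
  rw [MonoidHom.comp_apply, MonoidHom.comp_apply, Pool.Agent.Y961.FJ.conj_inr]
  congr 1
  rw [zpowersHom_apply, toAdd_ofAdd, zpow_one]
  exact Subtype.ext hxy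

section kl

variable {G J : Type} [Group G] {A : J → Subgroup G} {Q : Subgroup G} {L : J → Subgroup G}
  {N : Subgroup G}

theorem comm_free (h : Rel (⊥ : SimpleGraph J) A Q L N)
    (hab : ∀ j, ∀ a ∈ A j, ∀ b ∈ A j, a * b = b * a) :
    IsFreeGroup ↥(⁅nc N A, nc N A⁆) := by
  classical
  have hk := h.kernel
  obtain ⟨M, hM⟩ : ∃ M, M = nc N A := ⟨_, rfl⟩
  rw [← hM] at hk ⊢
  obtain ⟨p, hp⟩ := hk.retr
  have hDM : ⁅M, M⁆ ≤ M := by
    rw [Subgroup.commutator_le]
    intro a ha b hb
    exact M.mul_mem (M.mul_mem (M.mul_mem ha hb) (M.inv_mem ha)) (M.inv_mem hb)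
  have hrab : ∀ i (a b : relA A Q L i), a * b = b * a := by
    intro i a b
    have ha := (mem_relA).1 a.2
    have hb := (mem_relA).1 b.2
    have h1 := hab _ _ ha _ hb
    apply Subtype.ext
    show a.1 * b.1 = b.1 * a.1
    have h2 : ∀ r y z : G, r⁻¹ * y * r * (r⁻¹ * z * r) = r⁻¹ * (y * z) * r := fun r y z => by group
    rw [h2, h2] at h1
    exact mul_left_cancel (mul_right_cancel h1)
  have hDp : ∀ x ∈ ⁅M, M⁆, ∀ i, x ∈ rk M p i := by
    intro x hx i
    have h1 : ⁅M, M⁆ ≤ rk M p i := by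
      rw [Subgroup.commutator_le]
      intro a ha b hb
      rw [mem_rk]
      refine ⟨M.mul_mem (M.mul_mem (M.mul_mem ha hb) (M.inv_mem ha)) (M.inv_mem hb), ?_⟩
      have h2 : (⟨a * b * a⁻¹ * b⁻¹,
          M.mul_mem (M.mul_mem (M.mul_mem ha hb) (M.inv_mem ha)) (M.inv_mem hb)⟩ : M) =
        ⟨a, ha⟩ * ⟨b, hb⟩ * ⟨a, ha⟩⁻¹ * ⟨b, hb⟩⁻¹ := rfl
      show p i ⟨a * b * a⁻¹ * b⁻¹, _⟩ = 1
      rw [h2, map_mul, map_mul, map_mul, map_inv, map_inv, hrab i (p i ⟨a, ha⟩) (p i ⟨b, hb⟩)]
      group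
    exact h1 hx
  obtain ⟨φ, hφ⟩ := hk.univ (Monoid.CoprodI fun i => relA A Q L i)
      (fun i => Monoid.CoprodI.of (M := fun i => relA A Q L i) (i := i))
      (fun v w h => h.1.elim)
  have hφi : Function.Injective φ := by
    have h1 : (Monoid.CoprodI.lift (M := fun i => relA A Q L i) (N := M)
        (fun i => Subgroup.inclusion (hk.le i))).comp φ = MonoidHom.id M := by
      apply hp.hom_eq
      intro i a
      rw [MonoidHom.comp_apply, hφ, Monoid.CoprodI.lift_of]
      rfl
    intro x y hxy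
    have h2 := DFunLike.congr_fun h1 x
    have h3 := DFunLike.congr_fun h1 y
    have h4 : Monoid.CoprodI.lift (M := fun i => relA A Q L i) (N := M)
      (fun i => Subgroup.inclusion (hk.le i)) (φ x) = x := h2
    have h5 : Monoid.CoprodI.lift (M := fun i => relA A Q L i) (N := M)
      (fun i => Subgroup.inclusion (hk.le i)) (φ y) = y := h3
    rw [← h4, ← h5, hxy]
  let ψ : ↥(⁅M, M⁆) →* Monoid.CoprodI fun i => relA A Q L i := φ.comp (Subgroup.inclusion hDM)
  have hψ : Function.Injective ψ := hφi.comp (Subgroup.inclusion_injective hDM)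
  have hfree : IsFreeGroup ψ.range := by
    refine ker_free (P := ∀ i, relA A Q L i)
      (fun i => MonoidHom.mulSingle (fun i => relA A Q L i) i)
      (fun i => Pi.mulSingle_injective (M := fun i => relA A Q L i) i) ψ.range ?_
    rintro _ ⟨x, rfl⟩
    have h1 : (Monoid.CoprodI.lift fun i => MonoidHom.mulSingle (fun i => relA A Q L i) i).comp φ =
        MonoidHom.mk' (fun y : M => fun i => p i y) (fun y z => by
          funext i
          show p i (y * z) = p i y * p i z
          rw [map_mul]) := by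
      apply hp.hom_eq
      intro i a
      show Monoid.CoprodI.lift _ (φ ⟨a, _⟩) = fun j => p j ⟨a, _⟩
      rw [hφ, Monoid.CoprodI.lift_of]
      funext j
      by_cases hij : j = i
      · subst hij
        rw [hp.same]
        exact Pi.mulSingle_eq_same (M := fun i => relA A Q L i) _ _
      · rw [hp.other j i a hij]
        exact Pi.mulSingle_eq_of_ne (M := fun i => relA A Q L i) hij _
    have h2 := DFunLike.congr_fun h1 (Subgroup.inclusion hDM x)
    have h3 : Monoid.CoprodI.lift (fun i => MonoidHom.mulSingle (fun i => relA A Q L i) i) (ψ x) =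
      fun i => p i (Subgroup.inclusion hDM x) := h2
    rw [h3]
    funext i
    have h4 := hDp x.1 x.2 i
    rw [mem_rk] at h4
    obtain ⟨h5, h6⟩ := h4
    exact h6
  exact IsFreeGroup.ofMulEquiv (MonoidHom.ofInjective hψ).symm

/-- **kernels generated by conjugates of abelian groups** -/
theorem kl (hF : ClosedF C) (hA : AbC C) (h : Rel (⊥ : SimpleGraph J) A Q L N)
    (hab : ∀ j, ∀ a ∈ A j, ∀ b ∈ A j, a * b = b * a) [hn : (nc N A).Normal]
    (hQ : C (G ⧸ nc N A)) : C G := by
  have hfree := comm_free h hab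
  obtain ⟨M, hM⟩ : ∃ M, M = nc N A := ⟨_, rfl⟩
  have hMn : M.Normal := by rw [hM]; exact hn
  have hQ' : C (G ⧸ M) := by
    subst hM
    exact hQ
  rw [← hM] at hfree
  have hDM : ⁅M, M⁆ ≤ M := by
    rw [Subgroup.commutator_le]
    intro a ha b hb
    exact M.mul_mem (M.mul_mem (M.mul_mem ha hb) (M.inv_mem ha)) (M.inv_mem hb)
  have hDn : (⁅M, M⁆).Normal := Subgroup.commutator_normal M M
  refine hF.free G ⁅M, M⁆ hfree ?_
  have hBn : (M.map (QuotientGroup.mk' ⁅M, M⁆)).Normal :=
    Subgroup.Normal.map hMn _ (QuotientGroup.mk'_surjective _)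
  refine abel_ext hF.base hA (M.map (QuotientGroup.mk' ⁅M, M⁆)) ?_ ?_
  · rintro _ ⟨a, ha, rfl⟩ _ ⟨b, hb, rfl⟩
    rw [← map_mul, ← map_mul]
    apply (QuotientGroup.eq).2
    have h1 : (a * b)⁻¹ * (b * a) = b⁻¹ * a⁻¹ * (b⁻¹)⁻¹ * (a⁻¹)⁻¹ := by group
    rw [h1]
    exact Subgroup.commutator_mem_commutator (M.inv_mem hb) (M.inv_mem ha)
  · exact hF.base.base.of_injective _ (G ⧸ M)
      (QuotientGroup.quotientQuotientEquivQuotient ⁅M, M⁆ M hDM).toMonoidHom
      (QuotientGroup.quotientQuotientEquivQuotient ⁅M, M⁆ M hDM).injective hQ'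

end kl

end Run7.h370.RA
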