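import Pool.Agent.Y110.FJ.Stm

/-!
# Elements of `F(X) ⋊ Q` which commute with a hyperbolic element

`Q` acts on the set `X`, and `F(X) ⋊ Q` acts on the free group `F(X)`.
-/

set_option autoImplicit false

namespace Run7.h370.RA

open Pool.Agent.Y110.FJ (permAut)

section words

variable {X : Type} [DecidableEq X]

/-- the product is reduced -/
def RP (a b : FreeGroup X) : Prop := (a * b).norm = a.norm + b.norm

theorem RP.word {a b : FreeGroup X} (h : RP a b) : (a * b).toWord = a.toWord ++ b.toWord := by
  have h1 := FreeGroup.toWord_mul_sublist a b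
  apply h1.eq_of_length
  rw [List.length_append]
  exact h

theorem rp_iff {a b : FreeGroup X} : RP a b ↔ FreeGroup.IsReduced (a.toWord ++ b.toWord) := by
  constructor
  · intro h
    rw [← h.word]
    exact FreeGroup.isReduced_toWord
  · intro h
    have h1 : (a * b).toWord = a.toWord ++ b.toWord := by
      rw [FreeGroup.toWord_mul, h.reduce_eq]
    have h2 := congrArg List.length h1
    rw [List.length_append] at h2
    exact h2

theorem rp_mk {A B : List (X × Bool)} (h : FreeGroup.IsReduced (A ++ B)) :
    RP (FreeGroup.mk A) (FreeGroup.mk B) := by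
  have hA : FreeGroup.IsReduced A := List.IsChain.left_of_append h
  have hB : FreeGroup.IsReduced B := List.IsChain.right_of_append h
  rw [rp_iff, FreeGroup.toWord_mk, FreeGroup.toWord_mk, hA.reduce_eq, hB.reduce_eq]
  exact h

theorem RP.trans {a b c : FreeGroup X} (h1 : RP a b) (h2 : RP b c) (hb : b ≠ 1) : RP (a * b) c := by
  rw [rp_iff, h1.word]
  have hb' : b.toWord ≠ [] := by
    intro h
    exact hb (FreeGroup.toWord_eq_nil_iff.1 h)
  exact List.IsChain.append_overlap (rp_iff.1 h1) (rp_iff.1 h2) hb'

theorem RP.inv {a b : FreeGroup X} (h : RP a b) : RP b⁻¹ a⁻¹ := by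
  unfold RP at h ⊢
  rw [← mul_inv_rev, FreeGroup.norm_inv_eq, FreeGroup.norm_inv_eq, FreeGroup.norm_inv_eq, h, add_comm]

theorem RP.left {a b c : FreeGroup X} (h : RP a (b * c)) (h2 : RP b c) : RP a b := by
  unfold RP at h h2 ⊢
  have h3 := FreeGroup.norm_mul_le a b
  have h4 := FreeGroup.norm_mul_le (a * b) c
  rw [mul_assoc] at h4
  omega

theorem RP.right {a b c : FreeGroup X} (h : RP (a * b) c) (h2 : RP a b) : RP b c := by
  unfold RP at h h2 ⊢
  have h3 := FreeGroup.norm_mul_le b c
  have h4 := FreeGroup.norm_mul_le a (b * c)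
  rw [← mul_assoc] at h4
  omega

/-- the longest common prefix of lists -/
theorem common_start {α : Type} : ∀ A B : List α, ∃ P A' B', A = P ++ A' ∧ B = P ++ B' ∧
    ∀ x ∈ A'.head?, ∀ y ∈ B'.head?, x ≠ y := by
  classical
  intro A
  induction A with
  | nil => intro B; exact ⟨[], [], B, rfl, rfl, by simp⟩
  | cons a A ih =>
    intro B
    cases B with
    | nil => exact ⟨[], a :: A, [], rfl, rfl, by simp⟩
    | cons b B =>
      by_cases hab : a = b
      · subst hab
        obtain ⟨P, A', B', h1, h2, h3⟩ := ih B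
        exact ⟨a :: P, A', B', by rw [h1]; rfl, by rw [h2]; rfl, h3⟩
      · refine ⟨[], a :: A, b :: B, rfl, rfl, ?_⟩
        intro x hx y hy
        simp only [List.head?_cons, Option.mem_def, Option.some.injEq] at hx hy
        rw [← hx, ← hy]
        exact hab

theorem pref (a b : FreeGroup X) : ∃ u a' b', a = u * a' ∧ b = u * b' ∧ RP u a' ∧ RP u b' ∧
    RP a'⁻¹ b' := by
  obtain ⟨P, A', B', hA, hB, hne⟩ := common_start a.toWord b.toWord
  have hAr : FreeGroup.IsReduced (P ++ A') := by rw [← hA]; exact FreeGroup.isReduced_toWord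
  have hBr : FreeGroup.IsReduced (P ++ B') := by rw [← hB]; exact FreeGroup.isReduced_toWord
  have hA' : FreeGroup.IsReduced A' := List.IsChain.right_of_append hAr
  have hB' : FreeGroup.IsReduced B' := List.IsChain.right_of_append hBr
  refine ⟨FreeGroup.mk P, FreeGroup.mk A', FreeGroup.mk B', ?_, ?_, rp_mk hAr, rp_mk hBr, ?_⟩
  · rw [FreeGroup.mul_mk, ← hA, FreeGroup.mk_toWord]
  · rw [FreeGroup.mul_mk, ← hB, FreeGroup.mk_toWord]
  · rw [FreeGroup.inv_mk]
    apply rp_mk
    unfold FreeGroup.IsReduced
    rw [List.isChain_append]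
    refine ⟨?_, hB', ?_⟩
    · have h1 : FreeGroup.IsReduced (FreeGroup.mk A')⁻¹.toWord := FreeGroup.isReduced_toWord
      rw [FreeGroup.toWord_inv, FreeGroup.toWord_mk, hA'.reduce_eq] at h1
      exact h1
    · intro x hx y hy h1
      cases A' with
      | nil => simp [FreeGroup.invRev] at hx
      | cons z A'' =>
        have h2 : x = (z.1, !z.2) := by
          simp [FreeGroup.invRev] at hx
          exact hx.symm
        have h3 := hne z (by simp) y hy
        rw [h2] at h1 ⊢
        simp only at h1 ⊢
        by_contra h4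
        apply h3
        apply Prod.ext h1
        revert h4
        cases z.2 <;> cases y.2 <;> simp

/-- the first letter -/
theorem first_letter {u : FreeGroup X} (hu : u ≠ 1) : ∃ (x : X) (b : Bool) (v : FreeGroup X),
    u = FreeGroup.mk [(x, b)] * v ∧ u.norm = 1 + v.norm := by
  cases hw : u.toWord with
  | nil => exact absurd (FreeGroup.toWord_eq_nil_iff.1 hw) hu
  | cons a t =>
    refine ⟨a.1, a.2, FreeGroup.mk t, ?_, ?_⟩
    · rw [FreeGroup.mul_mk]
      have h1 : [(a.1, a.2)] ++ t = u.toWord := by rw [hw]; rfl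
      rw [h1, FreeGroup.mk_toWord]
    · have h1 : FreeGroup.IsReduced (a :: t) := by rw [← hw]; exact FreeGroup.isReduced_toWord
      have h2 : FreeGroup.IsReduced t := h1.tail
      unfold FreeGroup.norm
      rw [FreeGroup.toWord_mk, h2.reduce_eq, hw, List.length_cons, add_comm]

theorem norm_letter (x : X) (b : Bool) : (FreeGroup.mk [(x, b)]).norm = 1 := by
  unfold FreeGroup.norm
  rw [FreeGroup.toWord_mk]
  rfl

end words

section perm

variable {X Q : Type} [Group Q] [MulAction Q X]

theorem permAut_mk (q : Q) (L : List (X × Bool)) :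
    permAut X Q q (FreeGroup.mk L) = FreeGroup.mk (L.map fun a => (q • a.1, a.2)) := rfl

variable [DecidableEq X]

theorem permAut_word (q : Q) (w : FreeGroup X) :
    (permAut X Q q w).toWord = w.toWord.map fun a => (q • a.1, a.2) := by
  have h1 : permAut X Q q w = FreeGroup.mk (w.toWord.map fun a => (q • a.1, a.2)) := by
    conv_lhs => rw [← FreeGroup.mk_toWord (x := w)]
    rfl
  rw [h1, FreeGroup.toWord_mk]
  apply FreeGroup.IsReduced.reduce_eq
  have h2 : FreeGroup.IsReduced w.toWord := FreeGroup.isReduced_toWord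
  unfold FreeGroup.IsReduced at h2 ⊢
  rw [List.isChain_map]
  refine h2.imp ?_
  intro a b hab h
  exact hab (MulAction.injective q h)

theorem permAut_norm (q : Q) (w : FreeGroup X) : (permAut X Q q w).norm = w.norm := by
  unfold FreeGroup.norm
  rw [permAut_word, List.length_map]

/-- an element which fixes a nontrivial element of the free group fixes a basis element -/
theorem perm_fix {q : Q} {w : FreeGroup X} (hw : w ≠ 1) (h : permAut X Q q w = w) :
    ∃ x : X, q • x = x := by
  have h1 := permAut_word q w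
  rw [h] at h1
  cases hw' : w.toWord with
  | nil => exact absurd (FreeGroup.toWord_eq_nil_iff.1 hw') hw
  | cons a t =>
    rw [hw', List.map_cons, List.cons.injEq] at h1
    exact ⟨a.1, (congrArg Prod.fst h1.1).symm⟩

omit [DecidableEq X] in
/-- the exponent sum -/
theorem no_flip (q : Q) (x : X) (b : Bool) :
    permAut X Q q (FreeGroup.mk [(x, b)]) ≠ (FreeGroup.mk [(x, b)])⁻¹ := by
  intro h
  obtain ⟨σ, hσ⟩ : ∃ σ : FreeGroup X →* Multiplicative ℤ, ∀ y, σ (FreeGroup.of y) =
      Multiplicative.ofAdd 1 := ⟨FreeGroup.lift fun _ => Multiplicative.ofAdd 1, fun y => by simp⟩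
  have h1 : ∀ y, σ (FreeGroup.mk [(y, b)]) = Multiplicative.ofAdd (if b then 1 else -1) := by
    intro y
    cases b
    · have h2 : (FreeGroup.mk [(y, false)] : FreeGroup X) = (FreeGroup.of y)⁻¹ := rfl
      rw [h2, map_inv, hσ]
      rfl
    · exact hσ y
  have h2 := congrArg σ h
  rw [permAut_mk, map_inv] at h2
  have h3 : σ (FreeGroup.mk (List.map (fun a => (q • a.1, a.2)) [(x, b)])) =
    Multiplicative.ofAdd (if b then 1 else -1) := h1 _
  rw [h3, h1] at h2
  have h4 : (if b then (1 : ℤ) else -1) = -(if b then (1 : ℤ) else -1) := h2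
  cases b
  · simp at h4
  · simp at h4

end perm

end Run7.h370.RA
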