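import Pool.Agent.Run7.h370.RA.FG

/-!
# Commuting with a hyperbolic element of `F(X) ⋊ Q`
-/

set_option autoImplicit false

namespace Run7.h370.RA

open Pool.Agent.Y110.FJ (permAut)

section hyp

variable {X Q : Type} [Group Q] [MulAction Q X]

/-- the semidirect product -/
abbrev Sd (X Q : Type) [Group Q] [MulAction Q X] : Type := FreeGroup X ⋊[permAut X Q] Q

/-- the action on the free group -/
noncomputable def ac (g : Sd X Q) (w : FreeGroup X) : FreeGroup X := g.left * permAut X Q g.right w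

theorem ac_mul (g h : Sd X Q) (w : FreeGroup X) : ac (g * h) w = ac g (ac h w) := by
  unfold ac
  rw [SemidirectProduct.mul_left, SemidirectProduct.mul_right, map_mul, MulAut.mul_apply,
    map_mul, mul_assoc]

theorem ac_one (w : FreeGroup X) : ac (1 : Sd X Q) w = w := by
  unfold ac
  rw [SemidirectProduct.one_left, SemidirectProduct.one_right, map_one, one_mul]
  rfl

theorem ac_at_one (g : Sd X Q) : ac g 1 = g.left := by
  unfold ac
  rw [map_one, mul_one]

variable [DecidableEq X]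

theorem ac_norm (g : Sd X Q) (v w : FreeGroup X) : ((ac g v)⁻¹ * ac g w).norm = (v⁻¹ * w).norm := by
  unfold ac
  have : (g.left * permAut X Q g.right v)⁻¹ * (g.left * permAut X Q g.right w) =
      permAut X Q g.right (v⁻¹ * w) := by
    rw [map_mul, map_inv]
    group
  rw [this, permAut_norm]

/-- an element with minimal displacement at `1` is cyclically reduced -/
theorem cyc_red {g : Sd X Q} (hmin : ∀ m : FreeGroup X, g.left.norm ≤ (m⁻¹ * ac g m).norm) :
    RP g.left (permAut X Q g.right g.left) := by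
  obtain ⟨k, hkdef⟩ : ∃ k, k = g.left := ⟨_, rfl⟩
  obtain ⟨q, hqdef⟩ : ∃ q, q = g.right := ⟨_, rfl⟩
  have hac : ∀ m, ac g m = k * permAut X Q q m := by
    intro m; rw [hkdef, hqdef]; rfl
  rw [← hkdef] at hmin ⊢
  rw [← hqdef]
  obtain ⟨u, a', b', h1, h2, h3, h4, h5⟩ := pref k⁻¹ (permAut X Q q k)
  by_cases hu : u = 1
  · rw [hu, one_mul] at h1 h2
    rw [← h1, ← h2, inv_inv] at h5
    exact h5
  exfalso
  obtain ⟨x, b, v, hv1, hv2⟩ := first_letter hu
  obtain ⟨l, hl⟩ : ∃ l : FreeGroup X, l = FreeGroup.mk [(x, b)] := ⟨_, rfl⟩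
  have hln : l.norm = 1 := by rw [hl]; exact norm_letter x b
  rw [← hl] at hv1
  -- `k = c * l⁻¹`
  obtain ⟨c, hc⟩ : ∃ c, c = (v * a')⁻¹ := ⟨_, rfl⟩
  have hkc : k = c * l⁻¹ := by
    have : k⁻¹ = l * (v * a') := by rw [h1, hv1, mul_assoc]
    rw [← inv_inv k, this, hc, mul_inv_rev]
  have hkn : k.norm = c.norm + 1 := by
    have e1 : k.norm = u.norm + a'.norm := by
      rw [← FreeGroup.norm_inv_eq, h1]; exact h3
    have e2 : c.norm ≤ v.norm + a'.norm := by
      rw [hc, FreeGroup.norm_inv_eq]; exact FreeGroup.norm_mul_le _ _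
    have e3 : k.norm ≤ c.norm + 1 := by
      have := FreeGroup.norm_mul_le c l⁻¹
      rw [← hkc, FreeGroup.norm_inv_eq, hln] at this
      exact this
    omega
  -- `q k = l * d`
  obtain ⟨d, hd⟩ : ∃ d, d = v * b' := ⟨_, rfl⟩
  have hqk : permAut X Q q k = l * d := by rw [h2, hv1, hd, mul_assoc]
  have hdn : k.norm = d.norm + 1 := by
    have e1 : k.norm = u.norm + b'.norm := by
      rw [← permAut_norm q k, h2]; exact h4
    have e2 : d.norm ≤ v.norm + b'.norm := by
      rw [hd]; exact FreeGroup.norm_mul_le _ _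
    have e3 : k.norm ≤ d.norm + 1 := by
      have := FreeGroup.norm_mul_le l d
      rw [← hqk, permAut_norm, hln] at this
      omega
    omega
  obtain ⟨w, hw⟩ : ∃ w, w = permAut X Q q⁻¹ l := ⟨_, rfl⟩
  have hqw : permAut X Q q w = l := by
    rw [hw, ← MulAut.mul_apply, ← map_mul, mul_inv_cancel, map_one]
    rfl
  have hwn : w.norm = 1 := by rw [← permAut_norm q w, hqw, hln]
  obtain ⟨d', hd'⟩ : ∃ d', d' = w⁻¹ * k := ⟨_, rfl⟩
  have hqd' : permAut X Q q d' = d := by
    rw [hd', map_mul, map_inv, hqw, hqk]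
    group
  have hd'n : d'.norm = d.norm := by rw [← permAut_norm q d', hqd']
  have e1 : k.norm ≤ (w⁻¹ * c).norm := by
    have h := hmin w
    rw [hac, hqw] at h
    have h6 : w⁻¹ * (k * l) = w⁻¹ * c := by rw [hkc]; group
    rw [h6] at h
    exact h
  have e2 : (w⁻¹ * c).norm = w⁻¹.norm + c.norm := by
    have h6 := FreeGroup.norm_mul_le w⁻¹ c
    rw [FreeGroup.norm_inv_eq, hwn] at h6 ⊢
    omega
  by_cases hc1 : c = 1
  · rw [hc1, FreeGroup.norm_one] at hkn
    have hd1 : d' = 1 := by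
      rw [← FreeGroup.norm_eq_zero]
      omega
    have hkw : k = w := by
      rw [hd'] at hd1
      exact (inv_mul_eq_one.1 hd1).symm
    have hkl : k = l⁻¹ := by rw [hkc, hc1, one_mul]
    have h6 : permAut X Q q l = l⁻¹ := by
      have h7 : l = k⁻¹ := by rw [hkl, inv_inv]
      rw [h7, map_inv, hkw, hqw, h7, hkw]
    rw [hl] at h6
    exact no_flip q x b h6
  · have h6 : RP c l⁻¹ := by
      unfold RP
      rw [← hkc, hkn, FreeGroup.norm_inv_eq, hln]
    have h7 := RP.trans e2 h6 hc1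
    unfold RP at h7
    have h8 : w⁻¹ * c * l⁻¹ = d' := by rw [hd', hkc, mul_assoc]
    rw [h8, e2, FreeGroup.norm_inv_eq, FreeGroup.norm_inv_eq, hln, hwn] at h7
    omega

/-- the points of the axis near `1` -/
def segs (g : Sd X Q) : Set (FreeGroup X) :=
  {m | RP m (m⁻¹ * g.left)} ∪ {m | RP (permAut X Q g.right m) ((permAut X Q g.right m)⁻¹ * g.left⁻¹)}

theorem seg_finite (k : FreeGroup X) : {m : FreeGroup X | RP m (m⁻¹ * k)}.Finite := by
  have h1 : ((fun l : List (X × Bool) => FreeGroup.mk l) '' {l | l ∈ k.toWord.inits}).Finite :=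
    (List.finite_toSet _).image _
  apply h1.subset
  intro m hm
  have h2 := RP.word (show RP m (m⁻¹ * k) from hm)
  rw [mul_inv_cancel_left] at h2
  refine ⟨m.toWord, ?_, FreeGroup.mk_toWord⟩
  show m.toWord ∈ k.toWord.inits
  rw [List.mem_inits, h2]
  exact List.prefix_append _ _

theorem segs_finite (g : Sd X Q) : (segs g).Finite := by
  apply Set.Finite.union (seg_finite _)
  have h1 := (seg_finite g.left⁻¹).preimage
    (f := fun m => permAut X Q g.right m) ((permAut X Q g.right).injective.injOn)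
  exact h1

/-- points with minimal displacement are near `1` if they cannot be moved closer -/
theorem near {g : Sd X Q} (hr : RP g.left (permAut X Q g.right g.left)) (hk : g.left ≠ 1)
    {m : FreeGroup X} (hm : (m⁻¹ * ac g m).norm = g.left.norm) (h1 : m.norm ≤ (ac g m).norm)
    (h2 : m.norm ≤ (ac g⁻¹ m).norm) : m ∈ segs g := by
  obtain ⟨k, hkdef⟩ : ∃ k, k = g.left := ⟨_, rfl⟩
  obtain ⟨q, hqdef⟩ : ∃ q, q = g.right := ⟨_, rfl⟩
  have hac : ac g m = k * permAut X Q q m := by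
    rw [hkdef, hqdef]; rfl
  have hac' : (ac g⁻¹ m).norm = (k⁻¹ * m).norm := by
    have h := ac_norm g 1 (ac g⁻¹ m)
    rw [← ac_mul, mul_inv_cancel, ac_one, ac_at_one, inv_one, one_mul, ← hkdef] at h
    exact h.symm
  rw [hac] at hm h1
  rw [hac'] at h2
  unfold segs
  rw [← hkdef] at hr hm hk ⊢
  rw [← hqdef] at hr ⊢
  have hkpos : 0 < k.norm := by
    rcases Nat.eq_zero_or_pos k.norm with h | h
    · exact absurd (FreeGroup.norm_eq_zero.1 h) hk
    · exact h
  obtain ⟨n, hn⟩ : ∃ n, n = permAut X Q q m := ⟨_, rfl⟩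
  have hnn : n.norm = m.norm := by rw [hn, permAut_norm]
  rw [← hn] at hm h1
  obtain ⟨u, m', k', a1, a2, a3, a4, a5⟩ := pref m k
  obtain ⟨v, k'', m'', b1, b2, b3, b4, b5⟩ := pref k⁻¹ n
  have e1 : m.norm = u.norm + m'.norm := by rw [a1]; exact a3
  have e2 : k.norm = u.norm + k'.norm := by rw [a2]; exact a4
  have e3 : k.norm = v.norm + k''.norm := by rw [← FreeGroup.norm_inv_eq, b1]; exact b3
  have e4 : m.norm = v.norm + m''.norm := by rw [← hnn, b2]; exact b4
  have e5 : (k⁻¹ * m).norm = k'.norm + m'.norm := by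
    have h : k⁻¹ * m = k'⁻¹ * m' := by rw [a1, a2]; group
    have h' := RP.inv a5
    rw [inv_inv] at h'
    unfold RP at h'
    rw [h, h', FreeGroup.norm_inv_eq]
  have e6 : (k * n).norm = k''.norm + m''.norm := by
    have h : k * n = k''⁻¹ * m'' := by
      rw [← inv_inv k, b1, b2]; group
    unfold RP at b5
    rw [h, b5, FreeGroup.norm_inv_eq]
  have hk' : k' ≠ 1 := by
    intro h
    rw [h, FreeGroup.norm_one] at e2 e5
    omega
  have hk'' : k'' ≠ 1 := by
    intro h
    rw [h, FreeGroup.norm_one] at e3 e6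
    omega
  by_cases hu : u = 1
  · -- `u = 1`
    right
    show RP (permAut X Q q m) ((permAut X Q q m)⁻¹ * k⁻¹)
    rw [← hn]
    rw [hu, one_mul] at a1 a2
    rw [← a1, ← a2] at a5
    have hkk : k = k''⁻¹ * v⁻¹ := by rw [← inv_inv k, b1, mul_inv_rev]
    have c1 : RP k''⁻¹ v⁻¹ := RP.inv b3
    have c2 : RP m⁻¹ k''⁻¹ := by
      rw [hkk] at a5
      exact RP.left a5 c1
    have c3 : RP (m⁻¹ * k''⁻¹) m'' := RP.trans c2 b5 (by simpa using hk'')
    have c4 : (m⁻¹ * k''⁻¹ * m'').norm = m.norm + k''.norm + m''.norm := by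
      unfold RP at c2 c3
      rw [c3, c2, FreeGroup.norm_inv_eq, FreeGroup.norm_inv_eq]
    have c5 : m⁻¹ * (k * n) = m⁻¹ * k''⁻¹ * m'' := by rw [hkk, b2]; group
    rw [c5, c4] at hm
    have c6 : m'' = 1 := by
      rw [← FreeGroup.norm_eq_zero]
      omega
    have c7 : n = v := by rw [b2, c6, mul_one]
    have c8 : n⁻¹ * k⁻¹ = k'' := by rw [c7, b1]; group
    rw [c8, c7]
    exact b3
  by_cases hv : v = 1
  · left
    show RP m (m⁻¹ * k)
    rw [hv, one_mul] at b1 b2
    rw [← b1, ← b2, inv_inv] at b5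
    have c1 : RP k' n := by
      rw [a2] at b5
      exact RP.right b5 a4
    have c2 : RP (m'⁻¹ * k') n := RP.trans a5 c1 hk'
    have c3 : (m'⁻¹ * k' * n).norm = m'.norm + k'.norm + n.norm := by
      unfold RP at c2 a5
      rw [c2, a5, FreeGroup.norm_inv_eq]
    have c4 : m⁻¹ * (k * n) = m'⁻¹ * k' * n := by
      rw [a1, a2]; group
    rw [c4, c3] at hm
    have c5 : m' = 1 := by
      rw [← FreeGroup.norm_eq_zero]
      omega
    have c6 : m = u := by rw [a1, c5, mul_one]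
    have c7 : m⁻¹ * k = k' := by rw [c6, a2]; group
    rw [c7, c6]
    exact a4
  -- both nontrivial
  exfalso
  have d1 : permAut X Q q k = permAut X Q q u * permAut X Q q k' := by
    conv_lhs => rw [a2]
    rw [map_mul]
  have d2 : RP (permAut X Q q u) (permAut X Q q k') := by
    unfold RP at a4 ⊢
    rw [← map_mul, permAut_norm, permAut_norm, permAut_norm, a4]
  have d3 : RP k (permAut X Q q u) := by
    rw [d1] at hr
    exact RP.left hr d2
  have d4 : RP (permAut X Q q u) (permAut X Q q m') := by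
    unfold RP at a3 ⊢
    rw [← map_mul, permAut_norm, permAut_norm, permAut_norm, a3]
  have hqu : permAut X Q q u ≠ 1 := by
    intro h
    apply hu
    rw [← FreeGroup.norm_eq_zero, ← permAut_norm q u, h, FreeGroup.norm_one]
  have d5 : RP (k * permAut X Q q u) (permAut X Q q m') := RP.trans d3 d4 hqu
  have d6 : k * n = k * permAut X Q q u * permAut X Q q m' := by
    rw [hn, mul_assoc, ← map_mul, ← a1]
  have d7 : (k * n).norm = k.norm + m.norm := by
    unfold RP at d5 d3 a3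
    rw [d6, d5, d3, permAut_norm, permAut_norm]
    omega
  have hvpos : 0 < v.norm := by
    rcases Nat.eq_zero_or_pos v.norm with h | h
    · exact absurd (FreeGroup.norm_eq_zero.1 h) hv
    · exact h
  omega

end hyp

section main

variable {X Q : Type} [Group Q] [MulAction Q X]

theorem inl_conj (g : Sd X Q) (m : FreeGroup X) :
    ((SemidirectProduct.inl m)⁻¹ * g * SemidirectProduct.inl m : Sd X Q).left = m⁻¹ * ac g m := by
  unfold ac
  rw [← map_inv, SemidirectProduct.mul_left, SemidirectProduct.mul_left, SemidirectProduct.left_inl,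
    SemidirectProduct.right_inl, map_one, SemidirectProduct.mul_right, SemidirectProduct.right_inl,
    SemidirectProduct.left_inl, one_mul, mul_assoc]
  rfl

/-- **commuting with a hyperbolic element** -/
theorem hyp (g h : Sd X Q) (hgh : g * h = h * g) (hg : ∀ n : Sd X Q, (n⁻¹ * g * n).left ≠ 1) :
    ∃ (a : ℕ) (b : ℤ) (n : Sd X Q) (x : X), 0 < a ∧ (n⁻¹ * (h ^ a * g ^ b) * n).left = 1 ∧
      (n⁻¹ * (h ^ a * g ^ b) * n).right • x = x := by
  classical
  -- minimal displacement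
  obtain ⟨m₀, hm₀⟩ : ∃ m₀ : FreeGroup X, ∀ m, (m₀⁻¹ * ac g m₀).norm ≤ (m⁻¹ * ac g m).norm :=
    ⟨Function.argmin (fun m : FreeGroup X => (m⁻¹ * ac g m).norm),
      fun m => Function.argmin_le (fun m : FreeGroup X => (m⁻¹ * ac g m).norm) m⟩
  obtain ⟨c, hc⟩ : ∃ c : Sd X Q, c = SemidirectProduct.inl m₀ := ⟨_, rfl⟩
  obtain ⟨g', hg'⟩ : ∃ g', g' = c⁻¹ * g * c := ⟨_, rfl⟩
  obtain ⟨h', hh'⟩ : ∃ h', h' = c⁻¹ * h * c := ⟨_, rfl⟩
  have hcomm : g' * h' = h' * g' := by
    rw [hg', hh']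
    have e1 : c⁻¹ * g * c * (c⁻¹ * h * c) = c⁻¹ * (g * h) * c := by group
    have e2 : c⁻¹ * h * c * (c⁻¹ * g * c) = c⁻¹ * (h * g) * c := by group
    rw [e1, e2, hgh]
  have hk : g'.left ≠ 1 := by rw [hg']; exact hg c
  have hacc : ∀ m, ac c m = m₀ * m := by
    intro m
    unfold ac
    rw [hc, SemidirectProduct.left_inl, SemidirectProduct.right_inl, map_one]
    rfl
  have hg'c : c * g' = g * c := by rw [hg']; group
  have hmin : ∀ m : FreeGroup X, g'.left.norm ≤ (m⁻¹ * ac g' m).norm := by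
    intro m
    have e1 : g'.left = m₀⁻¹ * ac g m₀ := by rw [hg', hc, inl_conj]
    have e2 : m⁻¹ * ac g' m = (m₀ * m)⁻¹ * ac g (m₀ * m) := by
      rw [← hacc m, ← ac_mul, ← hg'c, ac_mul, hacc, hacc]
      group
    rw [e1, e2]
    exact hm₀ _
  have hr := cyc_red hmin
  have key : ∀ u : Sd X Q, g' * u = u * g' → ∃ b : ℤ, ac (g' ^ b * u) 1 ∈ segs g' := by
    intro u hu
    obtain ⟨b, hb⟩ : ∃ b : ℤ, ∀ b' : ℤ, (ac (g' ^ b * u) 1).norm ≤ (ac (g' ^ b' * u) 1).norm :=
      ⟨Function.argmin (fun b : ℤ => (ac (g' ^ b * u) 1).norm),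
        fun m => Function.argmin_le (fun b : ℤ => (ac (g' ^ b * u) 1).norm) m⟩
    have e0 : g' * (g' ^ b * u) = g' ^ b * u * g' := by
      rw [← mul_assoc, ← zpow_one_add, add_comm, zpow_add_one, mul_assoc, hu, mul_assoc]
    have e1 := hb (b + 1)
    have e2 := hb (-1 + b)
    rw [add_comm, zpow_one_add, mul_assoc] at e1
    rw [zpow_add, zpow_neg_one, mul_assoc] at e2
    refine ⟨b, ?_⟩
    generalize g' ^ b * u = w at *
    refine near hr hk ?_ ?_ ?_
    · rw [← ac_mul, e0, ac_mul, ac_norm, inv_one, one_mul, ac_at_one]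
    · rw [← ac_mul]
      exact e1
    · rw [← ac_mul]
      exact e2
  have hpow : ∀ a : ℕ, g' * h' ^ a = h' ^ a * g' := by
    intro a
    exact (Commute.pow_right (show Commute g' h' from hcomm) a)
  choose b hb using fun a : ℕ => key (h' ^ a) (hpow a)
  obtain ⟨a₁, a₂, hlt, heq⟩ := Set.Finite.exists_lt_map_eq_of_forall_mem hb (segs_finite g')
  obtain ⟨p, hp⟩ : ∃ p, p = (g' ^ b a₁ * h' ^ a₁)⁻¹ * (g' ^ b a₂ * h' ^ a₂) := ⟨_, rfl⟩
  have hp1 : ac p 1 = 1 := by
    rw [hp, ac_mul, ← heq, ← ac_mul, inv_mul_cancel, ac_one]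
  have hC : Commute g' h' := hcomm
  have hp2 : p = h' ^ (a₂ - a₁) * g' ^ (b a₂ - b a₁) := by
    have e1 : Commute (h' ^ (a₂ - a₁)) (g' ^ (b a₂ - b a₁)) :=
      ((hC.symm.pow_left _).zpow_right _)
    have e2 : Commute (h' ^ a₁) (g' ^ b a₁) := ((hC.symm.pow_left _).zpow_right _)
    have e3 : h' ^ a₂ = h' ^ (a₂ - a₁) * h' ^ a₁ := by rw [← pow_add, Nat.sub_add_cancel hlt.le]
    have e4 : g' ^ b a₂ = g' ^ (b a₂ - b a₁) * g' ^ b a₁ := by rw [← zpow_add, sub_add_cancel]
    have e5 : Commute (g' ^ b a₁ * h' ^ a₁) (h' ^ (a₂ - a₁) * g' ^ (b a₂ - b a₁)) := by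
      apply Commute.mul_right
      · apply Commute.mul_left
        · exact (hC.zpow_left _).pow_right _
        · exact (Commute.refl h').pow_pow _ _
      · apply Commute.mul_left
        · exact (Commute.refl g').zpow_zpow _ _
        · exact (hC.symm.pow_left _).zpow_right _
    rw [hp, e3, e4, inv_mul_eq_iff_eq_mul, e5.eq]
    have e6 : Commute (g' ^ b a₁) (h' ^ (a₂ - a₁)) := (hC.zpow_left _).pow_right _
    calc g' ^ (b a₂ - b a₁) * g' ^ b a₁ * (h' ^ (a₂ - a₁) * h' ^ a₁)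
        = g' ^ (b a₂ - b a₁) * (g' ^ b a₁ * h' ^ (a₂ - a₁)) * h' ^ a₁ := by group
      _ = g' ^ (b a₂ - b a₁) * (h' ^ (a₂ - a₁) * g' ^ b a₁) * h' ^ a₁ := by rw [e6.eq]
      _ = (g' ^ (b a₂ - b a₁) * h' ^ (a₂ - a₁)) * (g' ^ b a₁ * h' ^ a₁) := by group
      _ = _ := by rw [e1.eq]
  have hleft : p.left = 1 := by rw [← ac_at_one]; exact hp1
  have hpc : p * g' = g' * p := by
    rw [hp2]
    have : Commute (h' ^ (a₂ - a₁) * g' ^ (b a₂ - b a₁)) g' :=
      (hC.symm.pow_left _).mul_left ((Commute.refl g').zpow_left _)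
    exact this.eq
  have hfix : permAut X Q p.right g'.left = g'.left := by
    have e1 : ac p g'.left = g'.left := by
      rw [← ac_at_one g', ← ac_mul, hpc, ac_mul, hp1]
    unfold ac at e1
    rw [hleft, one_mul] at e1
    exact e1
  obtain ⟨x, hx⟩ := perm_fix hk hfix
  have hfin : c⁻¹ * (h ^ (a₂ - a₁) * g ^ (b a₂ - b a₁)) * c = p := by
    have e1 : ∀ n : ℕ, h' ^ n = c⁻¹ * h ^ n * c := by
      intro n
      have := conj_pow (a := c⁻¹) (b := h) (i := n)
      rw [inv_inv] at this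
      rw [hh', this]
    have e2 : ∀ n : ℤ, g' ^ n = c⁻¹ * g ^ n * c := by
      intro n
      have := conj_zpow (a := c⁻¹) (b := g) (i := n)
      rw [inv_inv] at this
      rw [hg', this]
    rw [hp2, e1, e2]
    group
  refine ⟨a₂ - a₁, b a₂ - b a₁, c, x, Nat.sub_pos_of_lt hlt, ?_, ?_⟩
  · rw [hfin, hleft]
  · rw [hfin, hx]

end main

end Run7.h370.RA
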