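import Pool.Agent.Run7.h370.RA.Mod

/-!
# Vertices of maximal degree
-/

set_option autoImplicit false

namespace Run7.h370.RA

section tw

variable {V : Type} (Γ : SimpleGraph V)

/-- the link -/
def lk (s : V) : Set V := {w | Γ.Adj s w}

/-- twins -/
def Tw (s w : V) : Prop := ∀ u, u ≠ s → u ≠ w → (Γ.Adj s u ↔ Γ.Adj w u)

/-- the class of twins -/
def tcl (s : V) : Set V := {w | Tw Γ s w}

variable {Γ}

theorem Tw.refl (s : V) : Tw Γ s s := fun _ _ _ => Iff.rfl

theorem Tw.symm {s w : V} (h : Tw Γ s w) : Tw Γ w s := fun u h1 h2 => (h u h2 h1).symm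

theorem Tw.trans {a b c : V} (h1 : Tw Γ a b) (h2 : Tw Γ b c) : Tw Γ a c := by
  intro u hua huc
  by_cases hub : u = b
  · subst hub
    by_cases hac : a = c
    · rw [hac]
    -- `Adj a b ↔ Adj a c ↔ Adj b c`
    have e1 : Γ.Adj u a ↔ Γ.Adj c a := h2 a hua.symm hac
    have e2 : Γ.Adj a c ↔ Γ.Adj u c := h1 c (Ne.symm hac) huc.symm
    rw [Γ.adj_comm a u, e1, Γ.adj_comm c a, e2, Γ.adj_comm u c]
  · rw [h1 u hua hub, h2 u hub huc]

theorem mem_tcl_self (s : V) : s ∈ tcl Γ s := Tw.refl s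

theorem tcl_eq {s w : V} (h : Tw Γ s w) : tcl Γ s = tcl Γ w := by
  ext u
  exact ⟨fun hu => h.symm.trans hu, fun hu => h.trans hu⟩

theorem tcl_eq_of_mem {s t w : V} (h1 : w ∈ tcl Γ s) (h2 : w ∈ tcl Γ t) : tcl Γ s = tcl Γ t :=
  (tcl_eq h1).trans (tcl_eq h2).symm

end tw

section main

variable {V N : Type} [Group N] {Γ : SimpleGraph V} {x : V → N}

/-- the classes of the elements which commute with `g` -/
noncomputable def Raag.Z (h : Raag Γ x) (g : N) : Submodule ℚ (V → ℚ) :=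
  Submodule.span ℚ {y | ∃ k, g * k = k * g ∧ h.cl k = y}

theorem Raag.mem_Z (h : Raag Γ x) {g k : N} (hgk : g * k = k * g) : h.cl k ∈ h.Z g :=
  Submodule.subset_span ⟨k, hgk, rfl⟩

theorem Raag.Z_le (h : Raag Γ x) {g : N} {s : V} (hs : ¬ CI x {s}ᶜ g) :
    h.Z g ≤ Submodule.span ℚ {h.cl g} ⊔ SV (lk Γ s) := by
  unfold Raag.Z
  rw [Submodule.span_le]
  rintro _ ⟨k, hk, rfl⟩
  obtain ⟨a, b, ha, hab⟩ := h.hyp s g k hk hs
  have h1 := h.cl_CI hab
  rw [h.cl_mul, h.cl_pow, h.cl_zpow] at h1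
  have ha' : (a : ℚ) ≠ 0 := by exact_mod_cast ha.ne'
  have h2 : h.cl k = (-((a : ℚ)⁻¹ * (b : ℚ))) • h.cl g +
      (a : ℚ)⁻¹ • ((a : ℚ) • h.cl k + (b : ℚ) • h.cl g) := by
    rw [smul_add, smul_smul, smul_smul, inv_mul_cancel₀ ha', one_smul, neg_smul]
    abel
  rw [h2]
  exact Submodule.add_mem_sup (Submodule.smul_mem _ _ (Submodule.mem_span_singleton_self _))
    (Submodule.smul_mem _ _ h1)

theorem SV_union_le [Finite V] {A B : Set V} {W : Submodule ℚ (V → ℚ)} (hA : SV A ≤ W)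
    (hB : SV B ≤ W) : SV (A ∪ B) ≤ W := by
  rw [SV_span, Submodule.span_le]
  rintro _ ⟨v, hv | hv, rfl⟩
  · exact hA (ev_mem hv)
  · exact hB (ev_mem hv)

theorem finrank_sup_le [Finite V] (γ : V → ℚ) (A : Set V) :
    Module.finrank ℚ ↥(Submodule.span ℚ {γ} ⊔ SV A) ≤ A.ncard + 1 := by
  have h1 := Submodule.finrank_add_le_finrank_add_finrank (Submodule.span ℚ {γ}) (SV A)
  have h2 : Module.finrank ℚ ↥(Submodule.span ℚ {γ}) ≤ 1 := by
    have := finrank_span_le_card (R := ℚ) ({γ} : Set (V → ℚ))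
    simpa using this
  rw [finrank_SV] at h1
  omega

/-- **elements with a large centralizer** -/
theorem Raag.main_cent [Finite V] (h : Raag Γ x) {D : ℕ} (hD : ∀ v, (lk Γ v).ncard + 1 ≤ D) {g : N}
    (hg : g ≠ 1) (hZ : D ≤ Module.finrank ℚ (h.Z g)) :
    ∃ s, (lk Γ s).ncard + 1 = D ∧ CI x (tcl Γ s) g := by
  classical
  obtain ⟨T, hT, hTs⟩ := h.supp g
  obtain ⟨W, hW⟩ : ∃ W, W = h.Z g := ⟨_, rfl⟩
  obtain ⟨γ, hγ⟩ : ∃ γ, γ = h.cl g := ⟨_, rfl⟩
  have hγW : γ ∈ W := by rw [hγ, hW]; exact h.mem_Z rfl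
  have hγT : γ ∈ SV T := by rw [hγ]; exact h.cl_CI hT
  rw [← hW] at hZ
  have hne : T.Nonempty := by
    rw [Set.nonempty_iff_ne_empty]
    rintro rfl
    obtain ⟨n, hn⟩ := hT
    unfold par at hn
    rw [Set.image_empty, Subgroup.closure_empty, Subgroup.mem_bot] at hn
    apply hg
    have h1 : g = n * (n⁻¹ * g * n) * n⁻¹ := by group
    rw [h1, hn]
    group
  have hfacts : ∀ s ∈ T, (lk Γ s).ncard + 1 = D ∧ Module.finrank ℚ W = D ∧ SV (lk Γ s) ≤ W ∧
      γ ∉ SV (lk Γ s) := by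
    intro s hs
    have h1 : W ≤ Submodule.span ℚ {γ} ⊔ SV (lk Γ s) := by rw [hW, hγ]; exact h.Z_le (hTs s hs)
    have h2 := Submodule.finrank_mono h1
    have h3 := finrank_sup_le γ (lk Γ s)
    have h4 := hD s
    have h5 : W = Submodule.span ℚ {γ} ⊔ SV (lk Γ s) :=
      Submodule.eq_of_le_of_finrank_le h1 (by omega)
    refine ⟨by omega, by omega, ?_, ?_⟩
    · rw [h5]; exact le_sup_right
    · intro h6
      have h7 : Submodule.span ℚ {γ} ⊔ SV (lk Γ s) = SV (lk Γ s) := by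
        rw [sup_eq_right, Submodule.span_singleton_le_iff_mem]
        exact h6
      rw [h7] at h5
      rw [h5, finrank_SV] at hZ
      omega
  -- adjacent elements
  have hadj : ∀ s ∈ T, ∀ t ∈ T, Γ.Adj s t → insert s (lk Γ s) = lk Γ s ∪ lk Γ t ∧
      SV (lk Γ s ∪ lk Γ t) ≤ W := by
    intro s hs t ht hst
    have h1 : SV (lk Γ s ∪ lk Γ t) ≤ W := SV_union_le (hfacts s hs).2.2.1 (hfacts t ht).2.2.1
    have h2 := Submodule.finrank_mono h1
    rw [finrank_SV, (hfacts s hs).2.1] at h2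
    refine ⟨?_, h1⟩
    have h3 : s ∉ lk Γ s := fun h => Γ.loopless.irrefl s h
    refine Set.eq_of_subset_of_ncard_le ?_ ?_ (Set.toFinite _)
    · intro u hu
      rcases hu with rfl | hu
      · exact Or.inr hst.symm
      · exact Or.inl hu
    · rw [Set.ncard_insert_of_notMem h3, (hfacts s hs).1]
      exact h2
  have htw : ∀ s ∈ T, ∀ t ∈ T, Tw Γ s t := by
    intro s hs t ht
    by_cases hst : Γ.Adj s t
    · have h1 := (hadj s hs t ht hst).1
      have h2 := (hadj t ht s hs hst.symm).1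
      intro u hus hut
      have e1 : u ∈ lk Γ s ↔ u ∈ insert s (lk Γ s) := by
        rw [Set.mem_insert_iff]
        exact ⟨Or.inr, fun h => h.resolve_left hus⟩
      have e2 : u ∈ lk Γ t ↔ u ∈ insert t (lk Γ t) := by
        rw [Set.mem_insert_iff]
        exact ⟨Or.inr, fun h => h.resolve_left hut⟩
      show u ∈ lk Γ s ↔ u ∈ lk Γ t
      rw [e1, e2, h1, h2, Set.union_comm]
    · by_cases hlk : lk Γ s = lk Γ t
      · intro u _ _
        show u ∈ lk Γ s ↔ u ∈ lk Γ t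
        rw [hlk]
      exfalso
      have hc : (lk Γ s).ncard = (lk Γ t).ncard := by
        have := (hfacts s hs).1
        have := (hfacts t ht).1
        omega
      have h1 : SV (lk Γ s ∪ lk Γ t) ≤ W := SV_union_le (hfacts s hs).2.2.1 (hfacts t ht).2.2.1
      have h2 : (lk Γ s).ncard < (lk Γ s ∪ lk Γ t).ncard := by
        apply Set.ncard_lt_ncard _ (Set.toFinite _)
        refine ⟨Set.subset_union_left, fun h3 => hlk ?_⟩
        symm
        apply Set.eq_of_subset_of_ncard_le _ hc.le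
        intro u hu
        exact h3 (Or.inr hu)
      have h3 : SV (lk Γ s ∪ lk Γ t) = W := by
        apply Submodule.eq_of_le_of_finrank_le h1
        rw [finrank_SV, (hfacts s hs).2.1]
        have := (hfacts s hs).1
        omega
      have h4 := (hfacts s hs).2.2.2
      rw [mem_SV] at h4
      push Not at h4
      obtain ⟨u, hus, hu⟩ := h4
      have hu1 : u ∈ lk Γ s ∪ lk Γ t := by
        by_contra hc
        rw [← h3] at hγW
        exact hu (hγW u hc)
      have hu2 : u ∈ lk Γ t := hu1.resolve_left hus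
      have hu3 : u ∈ T := by
        by_contra hc
        exact hu (hγT u hc)
      have h5 := (hadj t ht u hu3 hu2).2
      have h6 : ev t ∈ W := h5 (ev_mem (Or.inr (show Γ.Adj t u from hu2).symm))
      rw [← h3, ev_mem_iff] at h6
      rcases h6 with h6 | h6
      · exact hst h6
      · exact Γ.loopless.irrefl t h6
  obtain ⟨s, hs⟩ := hne
  refine ⟨s, (hfacts s hs).1, ?_⟩
  obtain ⟨n, hn⟩ := hT
  exact ⟨n, par_mono (fun t ht => htw s hs t ht) hn⟩

end main

end Run7.h370.RA
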