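import Pool.Agent.Run7.h370.RA.Ext

/-!
# Extensions whose kernel is a right-angled Artin group
-/

set_option autoImplicit false

namespace Run7.h370.RA

open Pool.Agent.Y110.FJ Q30.FJ
open Pool.Agent.R941.FJ (C_equiv C_le)

/-- `N` is the right-angled Artin group of the graph `Γ` on the elements `x v` -/
structure IsRaag {G V : Type} [Group G] (Γ : SimpleGraph V) (x : V → G) (N : Subgroup G) :
    Prop where
  closure : Subgroup.closure (Set.range x) = N
  comm : ∀ v w, Γ.Adj v w → x v * x w = x w * x v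
  univ : ∀ (H : Type) [Group H] (y : V → H), (∀ v w, Γ.Adj v w → y v * y w = y w * y v) →
    ∃ φ : N →* H, ∀ (v : V) (hv : x v ∈ N), φ ⟨x v, hv⟩ = y v

section basic

variable {G V : Type} [Group G] {Γ : SimpleGraph V} {x : V → G} {N : Subgroup G}

theorem IsRaag.mem (h : IsRaag Γ x N) (v : V) : x v ∈ N := by
  rw [← h.closure]
  exact Subgroup.subset_closure ⟨v, rfl⟩

theorem IsRaag.le_of (h : IsRaag Γ x N) {M : Subgroup G} (hM : ∀ v, x v ∈ M) : N ≤ M := by
  rw [← h.closure, Subgroup.closure_le]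
  rintro _ ⟨v, rfl⟩
  exact hM v

theorem IsRaag.raag (h : IsRaag Γ x N) : Raag Γ (fun v => (⟨x v, h.mem v⟩ : N)) := by
  refine ⟨?_, ?_, ?_⟩
  · rw [eq_top_iff]
    rintro y -
    obtain ⟨K, hK⟩ : ∃ K : Subgroup N,
      K = Subgroup.closure (Set.range fun v => (⟨x v, h.mem v⟩ : N)) := ⟨_, rfl⟩
    rw [← hK]
    have h1 : N ≤ K.map N.subtype := by
      apply h.le_of
      intro v
      refine ⟨⟨x v, h.mem v⟩, ?_, rfl⟩
      rw [hK]
      exact Subgroup.subset_closure ⟨v, rfl⟩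
    obtain ⟨z, hz, hzy⟩ := h1 y.2
    have : z = y := Subtype.ext hzy
    rwa [this] at hz
  · intro v w hvw
    exact Subtype.ext (h.comm v w hvw)
  · intro H _ y hy
    obtain ⟨φ, hφ⟩ := h.univ H y hy
    exact ⟨φ, fun v => hφ v _⟩

theorem IsRaag.sub (h : IsRaag Γ x N) {K : Subgroup G} (hNK : N ≤ K) :
    IsRaag Γ (fun v => (⟨x v, hNK (h.mem v)⟩ : K)) (N.subgroupOf K) := by
  refine ⟨?_, ?_, ?_⟩
  · apply le_antisymm
    · rw [Subgroup.closure_le]
      rintro _ ⟨v, rfl⟩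
      exact h.mem v
    · obtain ⟨M, hM⟩ : ∃ M : Subgroup K,
        M = Subgroup.closure (Set.range fun v => (⟨x v, hNK (h.mem v)⟩ : K)) := ⟨_, rfl⟩
      rw [← hM]
      have h1 : N ≤ M.map K.subtype := by
        apply h.le_of
        intro v
        refine ⟨⟨x v, hNK (h.mem v)⟩, ?_, rfl⟩
        rw [hM]
        exact Subgroup.subset_closure ⟨v, rfl⟩
      intro y hy
      obtain ⟨z, hz, hzy⟩ := h1 hy
      have : z = y := Subtype.ext hzy
      rwa [this] at hz
  · intro v w hvw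
    exact Subtype.ext (h.comm v w hvw)
  · intro H _ y hy
    obtain ⟨φ, hφ⟩ := h.univ H y hy
    refine ⟨φ.comp (MonoidHom.mk' (fun z => ⟨z.1.1, z.2⟩) (fun a b => rfl)), fun v hv => ?_⟩
    exact hφ v _

/-- the parabolic subgroups of `N` -/
theorem par_sub (h : IsRaag Γ x N) {T : Set V} {g : N}
    (hg : g ∈ par (fun v => (⟨x v, h.mem v⟩ : N)) T) : (g : G) ∈ par x T := by
  have h1 : par (fun v => (⟨x v, h.mem v⟩ : N)) T ≤ (par x T).comap N.subtype :=
    par_le fun v hv => mem_par (x := x) hv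
  exact h1 hg

/-- quotients -/
theorem IsRaag.quot (h : IsRaag Γ x N) (U : Set V) (M : Subgroup G) [M.Normal]
    (hU : ∀ v ∈ U, x v ∈ M)
    (hM : ∀ (H : Type) [Group H] (φ : N →* H), (∀ v ∈ U, φ ⟨x v, h.mem v⟩ = 1) →
      ∀ a (ha : a ∈ N), a ∈ M → φ ⟨a, ha⟩ = 1) :
    IsRaag (Γ.comap (Subtype.val : {v : V // v ∉ U} → V))
      (fun v : {v : V // v ∉ U} => (QuotientGroup.mk' M (x v.1))) (N.map (QuotientGroup.mk' M)) := by
  classical
  refine ⟨?_, ?_, ?_⟩
  · apply le_antisymm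
    · rw [Subgroup.closure_le]
      rintro _ ⟨v, rfl⟩
      exact ⟨x v.1, h.mem v.1, rfl⟩
    · rw [Subgroup.map_le_iff_le_comap]
      apply h.le_of
      intro v
      rw [Subgroup.mem_comap]
      by_cases hv : v ∈ U
      · have h1 : QuotientGroup.mk' M (x v) = 1 := (QuotientGroup.eq_one_iff _).2 (hU v hv)
        rw [h1]
        exact Subgroup.one_mem _
      · exact Subgroup.subset_closure ⟨⟨v, hv⟩, rfl⟩
  · intro v w hvw
    rw [← map_mul, ← map_mul, h.comm v.1 w.1 hvw]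
  · intro H _ y hy
    obtain ⟨φ, hφ⟩ := h.univ H (fun v => if hv : v ∉ U then y ⟨v, hv⟩ else 1) (by
      intro v w hvw
      by_cases hv : v ∉ U <;> by_cases hw : w ∉ U
      · simp only [dif_pos hv, dif_pos hw]
        exact hy ⟨v, hv⟩ ⟨w, hw⟩ hvw
      · simp only [dif_neg hw, mul_one, one_mul]
      · simp only [dif_neg hv, mul_one, one_mul]
      · simp only [dif_neg hw, mul_one, one_mul])
    obtain ⟨F, hF⟩ := desc M N φ (by
      intro a ha
      refine hM H φ ?_ a.1 a.2 ha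
      intro v hv
      rw [hφ]
      exact dif_neg (not_not.2 hv))
    refine ⟨F, ?_⟩
    intro v hv
    rw [hF ⟨x v.1, h.mem v.1⟩ _ rfl, hφ]
    exact dif_pos v.2

/-- the presentation relative to a class of twins -/
theorem IsRaag.rel (h : IsRaag Γ x N) (s : V) (b : V → V)
    (hb : ∀ u ∈ tcl Γ s, ∀ w ∈ tcl Γ s, Γ.Adj u w → b u = b w) :
    Rel (⊥ : SimpleGraph V) (fun j => par x {v | v ∈ tcl Γ s ∧ b v = j}) (par x (tcl Γ s)ᶜ)
      (fun _ => par x {w | w ∉ tcl Γ s ∧ Γ.Adj s w}) N := by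
  classical
  have hle : ∀ T : Set V, par x T ≤ N := fun T => par_le fun v _ => h.mem v
  have hlk : ∀ u ∈ tcl Γ s, ∀ w, w ∉ tcl Γ s → (Γ.Adj u w ↔ Γ.Adj s w) := by
    intro u hu w hw
    have h1 : w ≠ s := by
      rintro rfl
      exact hw (mem_tcl_self _)
    have h2 : w ≠ u := by
      rintro rfl
      exact hw hu
    exact (hu w h1 h2).symm
  refine ⟨fun j => hle _, hle _, fun j => par_mono (fun w hw => hw.1), ?_, ?_, ?_, ?_⟩
  · intro M hA hQ
    apply h.le_of
    intro v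
    by_cases hv : v ∈ tcl Γ s
    · exact hA (b v) (mem_par ⟨hv, rfl⟩)
    · exact hQ (mem_par hv)
  · intro v w hvw
    exact hvw.elim
  · intro j a ha l hl
    have h1 : par x {v | v ∈ tcl Γ s ∧ b v = j} ≤
        Subgroup.centralizer (par x {w | w ∉ tcl Γ s ∧ Γ.Adj s w} : Set G) := by
      apply par_le
      intro v hv
      rw [Subgroup.mem_centralizer_iff]
      intro l hl
      have h2 : par x {w | w ∉ tcl Γ s ∧ Γ.Adj s w} ≤ Subgroup.centralizer {x v} := by
        apply par_le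
        intro w hw
        rw [Subgroup.mem_centralizer_singleton_iff]
        exact (h.comm v w ((hlk v hv.1 w hw.1).2 hw.2)).symm
      exact Subgroup.mem_centralizer_singleton_iff.1 (h2 hl)
    exact ((Subgroup.mem_centralizer_iff.1 (h1 ha)) l hl).symm
  · intro H _ f k hf hk
    obtain ⟨y, hy⟩ : ∃ y : V → H, y = fun v => if hv : v ∈ tcl Γ s then
        f (b v) ⟨x v, mem_par ⟨hv, rfl⟩⟩ else k ⟨x v, mem_par hv⟩ := ⟨_, rfl⟩
    have hy1 : ∀ v (hv : v ∈ tcl Γ s), y v = f (b v) ⟨x v, mem_par ⟨hv, rfl⟩⟩ := by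
      intro v hv
      rw [hy]
      exact dif_pos hv
    have hy1' : ∀ v (hv : v ∈ tcl Γ s) j (hj : b v = j), y v = f j ⟨x v, mem_par ⟨hv, hj⟩⟩ := by
      intro v hv j hj
      subst hj
      exact hy1 v hv
    have hy2 : ∀ v (hv : v ∉ tcl Γ s), y v = k ⟨x v, mem_par hv⟩ := by
      intro v hv
      rw [hy]
      exact dif_neg hv
    have hmix : ∀ v w, v ∈ tcl Γ s → w ∉ tcl Γ s → Γ.Adj v w → y v * y w = y w * y v := by
      intro v w hv hw hvw
      rw [hy1 v hv, hy2 w hw]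
      exact hk (b v) ⟨x v, mem_par ⟨hv, rfl⟩⟩ ⟨x w, mem_par ⟨hw, (hlk v hv w hw).1 hvw⟩⟩
    obtain ⟨φ, hφ⟩ := h.univ H y (by
      intro v w hvw
      by_cases hv : v ∈ tcl Γ s <;> by_cases hw : w ∈ tcl Γ s
      · rw [hy1' v hv (b w) (hb v hv w hw hvw), hy1 w hw, ← map_mul, ← map_mul]
        congr 1
        exact Subtype.ext (h.comm v w hvw)
      · exact hmix v w hv hw hvw
      · exact (hmix w v hw hv hvw.symm).symm
      · rw [hy2 v hv, hy2 w hw, ← map_mul, ← map_mul]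
        congr 1
        exact Subtype.ext (h.comm v w hvw))
    refine ⟨φ, ?_, ?_⟩
    · intro j a
      have h1 : par x {v | v ∈ tcl Γ s ∧ b v = j} ≤
          ((φ.comp (Subgroup.inclusion (hle {v | v ∈ tcl Γ s ∧ b v = j}))).eqLocus (f j)).map
            (Subgroup.subtype _) := by
        apply par_le
        intro v hv
        refine ⟨⟨x v, mem_par hv⟩, ?_, rfl⟩
        show φ ⟨x v, _⟩ = f j ⟨x v, _⟩
        rw [hφ, hy1' v hv.1 j hv.2]
      obtain ⟨z, hz, hza⟩ := h1 a.2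
      have h2 : z = a := Subtype.ext hza
      rw [h2] at hz
      exact hz
    · intro q
      have h1 : par x (tcl Γ s)ᶜ ≤
          ((φ.comp (Subgroup.inclusion (hle (tcl Γ s)ᶜ))).eqLocus k).map (Subgroup.subtype _) := by
        apply par_le
        intro v hv
        refine ⟨⟨x v, mem_par hv⟩, ?_, rfl⟩
        show φ ⟨x v, _⟩ = k ⟨x v, _⟩
        rw [hφ, hy2 v hv]
      obtain ⟨z, hz, hza⟩ := h1 q.2
      have h2 : z = q := Subtype.ext hza
      rw [h2] at hz
      exact hz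

/-- a class of twins is complete or edgeless -/
theorem twin_cases (s : V) : ∃ b : V → V,
    (∀ u ∈ tcl Γ s, ∀ w ∈ tcl Γ s, Γ.Adj u w → b u = b w) ∧
    (∀ u ∈ tcl Γ s, ∀ w ∈ tcl Γ s, b u = b w → u = w ∨ Γ.Adj u w) := by
  by_cases h : ∃ u ∈ tcl Γ s, ∃ w ∈ tcl Γ s, Γ.Adj u w
  · obtain ⟨u, hu, w, hw, huw⟩ := h
    refine ⟨fun _ => s, fun _ _ _ _ _ => rfl, ?_⟩
    have h1 : ∀ c ∈ tcl Γ s, c ≠ u → Γ.Adj u c := by
      intro c hc hcu
      by_cases hcw : c = w
      · rw [hcw]; exact huw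
      · have h2 : Tw Γ w c := (Tw.symm hw).trans hc
        exact ((h2 u huw.ne hcu.symm).1 huw.symm).symm
    intro a ha c hc _
    by_cases hac : a = c
    · exact Or.inl hac
    right
    by_cases hau : a = u
    · subst hau
      exact h1 c hc (Ne.symm hac)
    · by_cases hcu : c = u
      · subst hcu
        exact (h1 a ha hau).symm
      · -- `Adj u c`, `Tw u a`
        have h2 : Tw Γ u a := (Tw.symm hu).trans ha
        exact (h2 c hcu (Ne.symm hac)).1 (h1 c hc hcu)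
  · refine ⟨id, ?_, ?_⟩
    · intro u hu w hw huw
      exact absurd ⟨u, hu, w, hw, huw⟩ h
    · intro u _ w _ huw
      exact Or.inl huw

end basic

section main

variable {C : ∀ (G : Type) [Group G], Prop}

/-- the normal subgroup generated by the class of `s` -/
abbrev Ms {G V : Type} [Group G] (Γ : SimpleGraph V) (x : V → G) (N : Subgroup G) (s : V)
    (b : V → V) : Subgroup G := nc N (fun j => par x {v | v ∈ tcl Γ s ∧ b v = j})

/-- one step -/
theorem stepK (hF : ClosedF C) (hA : AbC C) {G V : Type} [Group G] {Γ : SimpleGraph V} {x : V → G}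
    {N : Subgroup G} (h : IsRaag Γ x N) (s : V) (b : V → V)
    (hb : ∀ u ∈ tcl Γ s, ∀ w ∈ tcl Γ s, Γ.Adj u w → b u = b w)
    (hb' : ∀ u ∈ tcl Γ s, ∀ w ∈ tcl Γ s, b u = b w → u = w ∨ Γ.Adj u w)
    [hM : (Ms Γ x N s b).Normal] (hQ : C (G ⧸ Ms Γ x N s b)) : C G := by
  refine kl hF hA (h.rel s b hb) ?_ hQ
  intro j
  have hgen : ∀ u ∈ {v | v ∈ tcl Γ s ∧ b v = j}, ∀ w ∈ {v | v ∈ tcl Γ s ∧ b v = j},
      x u * x w = x w * x u := by
    intro u hu w hw
    rcases hb' u hu.1 w hw.1 (hu.2.trans hw.2.symm) with h1 | h1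
    · rw [h1]
    · exact h.comm u w h1
  intro a ha c hc
  have h1 : par x {v | v ∈ tcl Γ s ∧ b v = j} ≤
      Subgroup.centralizer (par x {v | v ∈ tcl Γ s ∧ b v = j} : Set G) := by
    apply par_le
    intro u hu
    rw [Subgroup.mem_centralizer_iff]
    intro l hl
    have h2 : par x {v | v ∈ tcl Γ s ∧ b v = j} ≤ Subgroup.centralizer {x u} := by
      apply par_le
      intro w hw
      rw [Subgroup.mem_centralizer_singleton_iff]
      exact hgen w hw u hu
    exact Subgroup.mem_centralizer_singleton_iff.1 (h2 hl)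
  exact ((Subgroup.mem_centralizer_iff.1 (h1 ha)) c hc).symm

theorem Ms_mem {G V : Type} [Group G] {Γ : SimpleGraph V} {x : V → G} {N : Subgroup G} {s : V}
    {b : V → V} {T : Set V} (hT : T ⊆ tcl Γ s) {g : G} (hg : g ∈ par x T) : g ∈ Ms Γ x N s b := by
  have h1 : par x T ≤ Ms Γ x N s b := par_le fun v hv =>
    le_nc (A := fun j => par x {v | v ∈ tcl Γ s ∧ b v = j}) (b v) (mem_par ⟨hT hv, rfl⟩)
  exact h1 hg

/-- finite index -/
theorem C_pow (hC : Pool.Agent.Y462.SS.Closed C) {G : Type} [Group G] (N : Subgroup G) [N.Normal]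
    (g : G) (k : ℕ) (hk : 0 < k) (h : C ↥(N ⊔ Subgroup.zpowers (g ^ k))) :
    C ↥(N ⊔ Subgroup.zpowers g) := by
  obtain ⟨K, hK⟩ : ∃ K, K = N ⊔ Subgroup.zpowers g := ⟨_, rfl⟩
  obtain ⟨K', hK'⟩ : ∃ K', K' = N ⊔ Subgroup.zpowers (g ^ k) := ⟨_, rfl⟩
  rw [← hK'] at h
  rw [← hK]
  have hg : g ∈ K := by rw [hK]; exact Subgroup.mem_sup_right (Subgroup.mem_zpowers g)
  have hle : K' ≤ K := by
    rw [hK', hK, sup_le_iff]
    refine ⟨le_sup_left, ?_⟩
    rw [Subgroup.zpowers_le]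
    exact Subgroup.mem_sup_right (Subgroup.pow_mem _ (Subgroup.mem_zpowers g) k)
  have hfin : Finite (K ⧸ K'.subgroupOf K) := by
    apply Finite.of_surjective (fun i : Fin k => (QuotientGroup.mk (⟨g, hg⟩ ^ (i : ℕ)) :
      K ⧸ K'.subgroupOf K))
    intro y
    induction y using QuotientGroup.induction_on with
    | H z =>
      have hz : z.1 ∈ N ⊔ Subgroup.zpowers g := by rw [← hK]; exact z.2
      rw [Pool.Agent.R941.FJ.mem_sup_normal] at hz
      obtain ⟨n, hn, c, hc, hnc⟩ := hz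
      obtain ⟨e, rfl⟩ := Subgroup.mem_zpowers_iff.1 hc
      have hkz : (0 : ℤ) < k := by exact_mod_cast hk
      have h1 := Int.emod_nonneg e hkz.ne'
      have h2 := Int.emod_lt_of_pos e hkz
      refine ⟨⟨(e % k).toNat, by omega⟩, ?_⟩
      apply QuotientGroup.eq.2
      show (g ^ ((e % k).toNat))⁻¹ * z.1 ∈ K'
      have h3 : g ^ ((e % k).toNat) = g ^ (e % (k : ℤ)) := by
        rw [← zpow_natCast, Int.toNat_of_nonneg h1]
      have h4 : e = e % k + k * (e / k) := (Int.emod_add_mul_ediv e k).symm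
      have h5 : g ^ e = g ^ (e % (k : ℤ)) * (g ^ k) ^ (e / k) := by
        rw [← zpow_natCast g k, ← zpow_mul, ← zpow_add, ← h4]
      have h6 : (g ^ ((e % k).toNat))⁻¹ * z.1 =
          ((g ^ (e % (k : ℤ)))⁻¹ * n * g ^ (e % (k : ℤ))) * (g ^ k) ^ (e / k) := by
        rw [h3, ← hnc, h5]
        group
      rw [h6, hK']
      apply Subgroup.mul_mem
      · apply Subgroup.mem_sup_left
        have := Subgroup.Normal.conj_mem (inferInstance : N.Normal) n hn (g ^ (e % (k : ℤ)))⁻¹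
        rwa [inv_inv] at this
      · exact Subgroup.mem_sup_right (Subgroup.zpow_mem _ (Subgroup.mem_zpowers _) _)
  have hfi : (K'.subgroupOf K).FiniteIndex := Subgroup.finiteIndex_of_finite_quotient
  exact hC.finiteIndex K (K'.subgroupOf K) hfi (C_equiv hC (Subgroup.subgroupOfEquivOfLe hle) h)

theorem main_aux (hC : ClosedE C) (hF : ClosedF C) (hA : AbC C) : ∀ (n : ℕ) (V : Type) [Finite V],
    Nat.card V = n → ∀ (Γ : SimpleGraph V) (G : Type) [Group G] (N : Subgroup G) [N.Normal]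
      (x : V → G), IsRaag Γ x N → C (G ⧸ N) → C G := by
  intro n
  induction n using Nat.strong_induction_on with
  | _ n ih =>
  intro V _ hV Γ G _ N hNn x h hQ
  rcases isEmpty_or_nonempty V with hemp | hne
  · have hN : N = ⊥ := by
      rw [← h.closure, Set.range_eq_empty, Subgroup.closure_empty]
    subst hN
    exact C_equiv hC.base (QuotientGroup.quotientBot (G := G)).symm hQ
  classical
  obtain ⟨s, hs⟩ := h.raag.invariant
  obtain ⟨b, hb, hb'⟩ := twin_cases (Γ := Γ) s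
  -- the groups generated by `N` and one element
  have hcyc : ∀ g : G, C ↥(N ⊔ Subgroup.zpowers g) := by
    intro g
    obtain ⟨k, hk, hinv⟩ := hs (MulAut.conjNormal g)
    refine C_pow hC.base N g k hk ?_
    obtain ⟨K, hK⟩ : ∃ K, K = N ⊔ Subgroup.zpowers (g ^ k) := ⟨_, rfl⟩
    rw [← hK]
    have hNK : N ≤ K := by rw [hK]; exact le_sup_left
    have hKn : (N.subgroupOf K).Normal := inferInstance
    have h' := h.sub hNK
    obtain ⟨M, hM⟩ : ∃ M, M = Ms Γ (fun v => (⟨x v, hNK (h.mem v)⟩ : K)) (N.subgroupOf K) s b :=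
      ⟨_, rfl⟩
    -- `M` is normal
    have hMU : ∀ v ∈ tcl Γ s, (⟨x v, hNK (h.mem v)⟩ : K) ∈ M := by
      intro v hv
      rw [hM]
      exact Ms_mem (T := tcl Γ s) (fun _ hw => hw) (mem_par (x := fun v => (⟨x v, hNK (h.mem v)⟩ : K)) hv)
    have hMN : ∀ z ∈ N.subgroupOf K, ∀ y ∈ M, z * y * z⁻¹ ∈ M := by
      intro z hz y hy
      rw [hM] at hy ⊢
      exact nc_conj hz hy
    have hCI : ∀ (a : N), CI (fun v => (⟨x v, h.mem v⟩ : N)) (tcl Γ s) a →
        (⟨a.1, hNK a.2⟩ : K) ∈ M := by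
      rintro a ⟨n, hn⟩
      have h1 := par_sub h hn
      have h2 : (⟨n.1⁻¹ * a.1 * n.1, K.mul_mem (K.mul_mem (K.inv_mem (hNK n.2)) (hNK a.2)) (hNK n.2)⟩ : K) ∈ M := by
        have h3 : par (fun v => (⟨x v, hNK (h.mem v)⟩ : K)) (tcl Γ s) ≤ M :=
          par_le hMU
        have h4 : par x (tcl Γ s) ≤ (par (fun v => (⟨x v, hNK (h.mem v)⟩ : K)) (tcl Γ s)).map K.subtype := by
          apply par_le
          intro v hv
          exact ⟨⟨x v, hNK (h.mem v)⟩, mem_par (x := fun v => (⟨x v, hNK (h.mem v)⟩ : K)) hv, rfl⟩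
        obtain ⟨z, hz, hze⟩ := h4 h1
        have h5 : z = (⟨n.1⁻¹ * a.1 * n.1, K.mul_mem (K.mul_mem (K.inv_mem (hNK n.2)) (hNK a.2)) (hNK n.2)⟩ : K) :=
          Subtype.ext hze
        rw [← h5]
        exact h3 hz
      have h6 := hMN ⟨n.1, hNK n.2⟩ n.2 _ h2
      have h7 : (⟨n.1, hNK n.2⟩ : K) * (⟨n.1⁻¹ * a.1 * n.1, K.mul_mem (K.mul_mem (K.inv_mem (hNK n.2)) (hNK a.2)) (hNK n.2)⟩ : K) *
          (⟨n.1, hNK n.2⟩ : K)⁻¹ = ⟨a.1, hNK a.2⟩ := by
        apply Subtype.ext
        show n.1 * (n.1⁻¹ * a.1 * n.1) * n.1⁻¹ = a.1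
        group
      rwa [h7] at h6
    have hgk : g ^ k ∈ K := by rw [hK]; exact Subgroup.mem_sup_right (Subgroup.mem_zpowers _)
    -- an element which normalizes `N` and maps the generators to `M` maps `M` to `M`
    have hconj : ∀ z : K, (∀ v ∈ tcl Γ s, z * (⟨x v, hNK (h.mem v)⟩ : K) * z⁻¹ ∈ M) →
        ∀ y ∈ M, z * y * z⁻¹ ∈ M := by
      intro z hz y hy
      have h1 : M ≤ M.comap (MulAut.conj z).toMonoidHom := by
        conv_lhs => rw [hM]
        apply nc_le_of
        · intro n hn y hy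
          have h2 : z * (n * y * n⁻¹) * z⁻¹ = (z * n * z⁻¹) * (z * y * z⁻¹) * (z * n * z⁻¹)⁻¹ := by
            group
          show z * (n * y * n⁻¹) * z⁻¹ ∈ M
          rw [h2]
          exact hMN _ (hKn.conj_mem n hn z) _ hy
        · intro j
          apply par_le
          intro v hv
          exact hz v hv.1
      exact h1 hy
    have hpos : ∀ y ∈ M, (⟨g ^ k, hgk⟩ : K) * y * (⟨g ^ k, hgk⟩ : K)⁻¹ ∈ M := by
      apply hconj
      intro v hv
      have h1 := (hinv v hv).1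
      have h2 := hCI _ h1
      have h3 : ((((MulAut.conjNormal g : MulAut N) ^ k) ⟨x v, h.mem v⟩ : N) : G) =
          g ^ k * x v * (g ^ k)⁻¹ := by
        rw [← map_pow]
        rfl
      have h4 : (⟨g ^ k, hgk⟩ : K) * (⟨x v, hNK (h.mem v)⟩ : K) * (⟨g ^ k, hgk⟩ : K)⁻¹ =
          ⟨(((MulAut.conjNormal g : MulAut N) ^ k) ⟨x v, h.mem v⟩ : N).1, hNK (Subtype.mem _)⟩ :=
        Subtype.ext h3.symm
      rw [h4]
      exact h2
    have hneg : ∀ y ∈ M, (⟨g ^ k, hgk⟩ : K)⁻¹ * y * (⟨g ^ k, hgk⟩ : K) ∈ M := by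
      have h0 : ∀ y ∈ M, (⟨g ^ k, hgk⟩ : K)⁻¹ * y * (⟨g ^ k, hgk⟩ : K)⁻¹⁻¹ ∈ M := by
        apply hconj
        intro v hv
        have h1 := (hinv v hv).2
        have h2 := hCI _ h1
        have h3 : ((((MulAut.conjNormal g : MulAut N) ^ k)⁻¹ ⟨x v, h.mem v⟩ : N) : G) =
            (g ^ k)⁻¹ * x v * (g ^ k)⁻¹⁻¹ := by
          rw [← map_pow, ← map_inv]
          rfl
        have h4 : (⟨g ^ k, hgk⟩ : K)⁻¹ * (⟨x v, hNK (h.mem v)⟩ : K) * (⟨g ^ k, hgk⟩ : K)⁻¹⁻¹ =
            ⟨(((MulAut.conjNormal g : MulAut N) ^ k)⁻¹ ⟨x v, h.mem v⟩ : N).1, hNK (Subtype.mem _)⟩ :=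
          Subtype.ext h3.symm
        rw [h4]
        exact h2
      intro y hy
      have := h0 y hy
      rwa [inv_inv] at this
    have hMn : M.Normal := by
      have h1 : ∀ z : K, z ∈ Subgroup.normalizer (M : Set K) := by
        have h2 : N ⊔ Subgroup.zpowers (g ^ k) ≤ (Subgroup.normalizer (M : Set K)).map K.subtype := by
          rw [sup_le_iff]
          constructor
          · intro n hn
            refine ⟨⟨n, hNK hn⟩, ?_, rfl⟩
            rw [SetLike.mem_coe, Subgroup.mem_normalizer_iff]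
            intro y
            refine ⟨fun hy => hMN _ hn _ hy, fun hy => ?_⟩
            have h3 := hMN (⟨n, hNK hn⟩ : K)⁻¹ (N.inv_mem hn) _ hy
            have h4 : (⟨n, hNK hn⟩ : K)⁻¹ * (⟨n, hNK hn⟩ * y * (⟨n, hNK hn⟩ : K)⁻¹) *
                (⟨n, hNK hn⟩ : K)⁻¹⁻¹ = y := by group
            rwa [h4] at h3
          · rw [Subgroup.zpowers_le]
            refine ⟨⟨g ^ k, hgk⟩, ?_, rfl⟩
            rw [SetLike.mem_coe, Subgroup.mem_normalizer_iff]
            intro y
            refine ⟨fun hy => hpos _ hy, fun hy => ?_⟩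
            have h3 := hneg _ hy
            have h4 : (⟨g ^ k, hgk⟩ : K)⁻¹ * (⟨g ^ k, hgk⟩ * y * (⟨g ^ k, hgk⟩ : K)⁻¹) *
                (⟨g ^ k, hgk⟩ : K) = y := by group
            rwa [h4] at h3
        intro z
        rw [← hK] at h2
        obtain ⟨z', hz', hzz⟩ := h2 z.2
        have h5 : z' = z := Subtype.ext hzz
        rw [← h5]
        exact hz'
      constructor
      intro y hy z
      exact (Subgroup.mem_normalizer_iff.1 (h1 z) y).1 hy
    have hMN' : M ≤ N.subgroupOf K := by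
      rw [hM]
      exact nc_le (h'.rel s b hb).le
    -- the quotient by `M`
    have hquot : C (K ⧸ M) := by
      have h1 := h'.quot (tcl Γ s) M hMU (by
        intro H _ φ hφ a ha haM
        have h2 : a ∈ Ms Γ (fun v => (⟨x v, hNK (h.mem v)⟩ : K)) (N.subgroupOf K) s b := by
          rw [← hM]; exact haM
        refine nc_hom (h'.rel s b hb).le φ ?_ h2 ha
        intro j a' ha'
        have h3 : par (fun v => (⟨x v, hNK (h.mem v)⟩ : K)) {v | v ∈ tcl Γ s ∧ b v = j} ≤
            φ.ker.map (N.subgroupOf K).subtype := by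
          apply par_le
          intro v hv
          exact ⟨⟨_, h'.mem v⟩, hφ v hv.1, rfl⟩
        obtain ⟨z, hz, hza⟩ := h3 ha'
        have h4 : (⟨a', (h'.rel s b hb).le j ha'⟩ : N.subgroupOf K) = z := Subtype.ext hza.symm
        rw [h4]
        exact hz)
      have hcard : Nat.card {v : V // v ∉ tcl Γ s} < n := by
        rw [← hV]
        exact Finite.card_subtype_lt (p := fun v => v ∉ tcl Γ s) (x := s)
          (not_not.2 (mem_tcl_self s))
      have hn2 : ((N.subgroupOf K).map (QuotientGroup.mk' M)).Normal :=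
        Subgroup.Normal.map hKn _ (QuotientGroup.mk'_surjective _)
      refine ih _ hcard {v : V // v ∉ tcl Γ s} rfl _ (K ⧸ M) _ _ h1 ?_
      have h5 : C (K ⧸ N.subgroupOf K) := by
        refine hC.base.of_injective _ (G ⧸ N) (QuotientGroup.map (N.subgroupOf K) N K.subtype
          (fun x hx => hx)) ?_ hQ
        rw [injective_iff_map_eq_one]
        intro y
        induction y using QuotientGroup.induction_on with
        | H z =>
          intro hz
          have h1 : z.1 ∈ N := (QuotientGroup.eq_one_iff _).1 hz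
          exact (QuotientGroup.eq_one_iff _).2 h1
      exact hC.base.of_injective _ _
        (QuotientGroup.quotientQuotientEquivQuotient M (N.subgroupOf K) hMN').toMonoidHom
        (QuotientGroup.quotientQuotientEquivQuotient M (N.subgroupOf K) hMN').injective h5
    subst hM
    exact stepK hF hA h' s b hb hb' hquot
  refine Pool.Agent.Y529.FJ.t_ext C hC G N ?_ hQ fun g _ => hcyc g
  exact C_le hC.base le_sup_left (hcyc 1)

/-- **extensions with kernels which are right-angled Artin groups** -/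
theorem raag_main (hC : ClosedE C)
    (hF : ∀ (X : Type) (α : MulAut (FreeGroup X)),
      C (FreeGroup X ⋊[zpowersHom (MulAut (FreeGroup X)) α] Multiplicative ℤ))
    (hA : ∀ (B : Type) [CommGroup B] (α : MulAut B), C (B ⋊[zpowersHom (MulAut B) α] Multiplicative ℤ))
    {G V : Type} [Group G] [Finite V] (Γ : SimpleGraph V) (N : Subgroup G) [N.Normal] (x : V → G)
    (h : IsRaag Γ x N) (hQ : C (G ⧸ N)) : C G := by
  refine main_aux hC ⟨hC, ?_⟩ hA _ V rfl Γ G N x h hQ
  intro G _ N _ hN hQ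
  exact Pool.Agent.R684.FP.free_ext hC hF N hQ

end main

end Run7.h370.RA
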