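import Pool.Agent.Run7.h370.RA.Raag
import Pool.Agent.Y961.FJ.Perm

/-!
# The splitting of a right-angled Artin group at a vertex
-/

set_option autoImplicit false

namespace Run7.h370.RA

open Pool.Agent.Y110.FJ (permAut)

section model

variable {V N : Type} [Group N] {Γ : SimpleGraph V} {x : V → N} (s : V)

/-- the subgroup of the other vertices -/
abbrev Qs (x : V → N) (s : V) : Subgroup N := par x {s}ᶜ

/-- the subgroup of the link -/
def Ls (Γ : SimpleGraph V) (x : V → N) (s : V) : Subgroup N := par x {w | Γ.Adj s w}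

/-- the index set -/
abbrev Xs (Γ : SimpleGraph V) (x : V → N) (s : V) : Type := Qs x s ⧸ (Ls Γ x s).subgroupOf (Qs x s)

theorem Raag.link_comm (h : Raag Γ x) {l : N} (hl : l ∈ Ls Γ x s) : l * x s = x s * l := by
  have h1 : Ls Γ x s ≤ Subgroup.centralizer {x s} := by
    apply par_le
    intro w hw
    rw [Subgroup.mem_centralizer_singleton_iff]
    exact (h.comm s w hw).symm
  exact Subgroup.mem_centralizer_singleton_iff.1 (h1 hl)

theorem Raag.out_conj (h : Raag Γ x) (q : Qs x s) :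
    ((QuotientGroup.mk q : Xs Γ x s).out : N) * x s * ((QuotientGroup.mk q : Xs Γ x s).out : N)⁻¹ =
      q * x s * (q : N)⁻¹ := by
  obtain ⟨l, hl⟩ := QuotientGroup.mk_out_eq_mul ((Ls Γ x s).subgroupOf (Qs x s)) q
  rw [hl]
  have h1 : (l : Qs x s).1 ∈ Ls Γ x s := l.2
  have h2 := h.link_comm s h1
  have h3 : (((q * (l : Qs x s) : Qs x s)) : N) = q.1 * (l : Qs x s).1 := rfl
  rw [h3]
  calc q.1 * (l : Qs x s).1 * x s * (q.1 * (l : Qs x s).1)⁻¹
      = q.1 * ((l : Qs x s).1 * x s) * (l : Qs x s).1⁻¹ * q.1⁻¹ := by group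
    _ = q.1 * (x s * (l : Qs x s).1) * (l : Qs x s).1⁻¹ * q.1⁻¹ := by rw [h2]
    _ = q.1 * x s * q.1⁻¹ := by group

/-- the map from the model -/
theorem Raag.exists_Ψ (h : Raag Γ x) : ∃ Ψ : Sd (Xs Γ x s) (Qs x s) →* N,
    (∀ q : Qs x s, Ψ (SemidirectProduct.inr q) = q) ∧
    ∀ q : Qs x s, Ψ (SemidirectProduct.inl (FreeGroup.of (QuotientGroup.mk q : Xs Γ x s))) =
      q * x s * (q : N)⁻¹ := by
  obtain ⟨F, hF⟩ : ∃ F : FreeGroup (Xs Γ x s) →* N, ∀ q : Qs x s,
      F (FreeGroup.of (QuotientGroup.mk q : Xs Γ x s)) = q * x s * (q : N)⁻¹ := by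
    refine ⟨FreeGroup.lift fun c : Xs Γ x s => (c.out : N) * x s * (c.out : N)⁻¹, fun q => ?_⟩
    rw [FreeGroup.lift_apply_of, h.out_conj]
  refine ⟨SemidirectProduct.lift F (Qs x s).subtype ?_, ?_, ?_⟩
  · intro g
    apply FreeGroup.ext_hom
    intro c
    obtain ⟨q, rfl⟩ := QuotientGroup.mk_surjective c
    show F (permAut (Xs Γ x s) (Qs x s) g (FreeGroup.of (QuotientGroup.mk q : Xs Γ x s))) =
      (g : N) * F (FreeGroup.of (QuotientGroup.mk q : Xs Γ x s)) * (g : N)⁻¹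
    have h1 : permAut (Xs Γ x s) (Qs x s) g (FreeGroup.of (QuotientGroup.mk q : Xs Γ x s)) =
      FreeGroup.of (QuotientGroup.mk (g * q) : Xs Γ x s) := rfl
    rw [h1, hF, hF]
    show (g : N) * q * x s * ((g : N) * q)⁻¹ = _
    group
  · intro q
    rw [SemidirectProduct.lift_inr]
    rfl
  · intro q
    rw [SemidirectProduct.lift_inl, hF]

/-- the map to the model -/
theorem Raag.exists_Φ (h : Raag Γ x) : ∃ Φ : N →* Sd (Xs Γ x s) (Qs x s),
    (∀ q : Qs x s, Φ q = SemidirectProduct.inr q) ∧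
    Φ (x s) = SemidirectProduct.inl (FreeGroup.of (QuotientGroup.mk (1 : Qs x s) : Xs Γ x s)) := by
  classical
  obtain ⟨y, hy⟩ : ∃ y : V → Sd (Xs Γ x s) (Qs x s), y = fun v => if hv : v = s then
      SemidirectProduct.inl (FreeGroup.of (QuotientGroup.mk (1 : Qs x s) : Xs Γ x s))
      else SemidirectProduct.inr ⟨x v, mem_par hv⟩ := ⟨_, rfl⟩
  have hys : y s = SemidirectProduct.inl
      (FreeGroup.of (QuotientGroup.mk (1 : Qs x s) : Xs Γ x s)) := by
    rw [hy]
    exact dif_pos rfl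
  have hyv : ∀ v (hv : v ≠ s), y v = SemidirectProduct.inr ⟨x v, mem_par hv⟩ := by
    intro v hv
    rw [hy]
    exact dif_neg hv
  have hsv : ∀ v, Γ.Adj s v → y s * y v = y v * y s := by
    intro v hsv
    have hv : v ≠ s := hsv.ne'
    rw [hys, hyv v hv]
    have h1 := Pool.Agent.Y961.FJ.conj_inr (permAut (Xs Γ x s) (Qs x s)) ⟨x v, mem_par hv⟩
      (FreeGroup.of (QuotientGroup.mk (1 : Qs x s) : Xs Γ x s))
    have h2 : permAut (Xs Γ x s) (Qs x s) ⟨x v, mem_par hv⟩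
        (FreeGroup.of (QuotientGroup.mk (1 : Qs x s) : Xs Γ x s)) =
        FreeGroup.of (QuotientGroup.mk (1 : Qs x s) : Xs Γ x s) := by
      show FreeGroup.of (QuotientGroup.mk (⟨x v, mem_par hv⟩ * 1) : Xs Γ x s) = _
      congr 1
      rw [mul_one, eq_comm, QuotientGroup.eq, inv_one, one_mul]
      show x v ∈ Ls Γ x s
      exact mem_par hsv
    rw [h2] at h1
    exact (mul_inv_eq_iff_eq_mul.1 h1).symm
  obtain ⟨Φ, hΦ⟩ := h.univ _ y (by
    intro v w hvw
    by_cases hv : v = s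
    · subst hv
      exact hsv w hvw
    · by_cases hw : w = s
      · subst hw
        exact (hsv v hvw.symm).symm
      · rw [hyv v hv, hyv w hw, ← map_mul, ← map_mul]
        congr 1
        exact Subtype.ext (h.comm v w hvw))
  refine ⟨Φ, ?_, by rw [hΦ, hys]⟩
  intro q
  obtain ⟨r, hr1, -⟩ := h.ret {s}ᶜ
  have h1 : Qs x s ≤ (Φ.eqLocus Φ) := par_le fun _ _ => rfl
  have h2 : Qs x s ≤ (Subgroup.map (Qs x s).subtype
      ((Φ.comp (Qs x s).subtype).eqLocus SemidirectProduct.inr)) := by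
    apply par_le
    intro v hv
    refine ⟨⟨x v, mem_par hv⟩, ?_, rfl⟩
    show Φ (x v) = _
    rw [hΦ, hyv v hv]
  obtain ⟨q', hq', hqq⟩ := h2 q.2
  have h3 : q' = q := Subtype.ext hqq
  rw [h3] at hq'
  exact hq'

/-- **centralizers of elements not conjugate into the subgroup of the other vertices** -/
theorem Raag.hyp (h : Raag Γ x) (g k : N) (hgk : g * k = k * g) (hg : ¬ CI x {s}ᶜ g) :
    ∃ (a : ℕ) (b : ℤ), 0 < a ∧ CI x {w | Γ.Adj s w} (k ^ a * g ^ b) := by
  obtain ⟨Φ, hΦq, hΦs⟩ := h.exists_Φ s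
  obtain ⟨Ψ, hΨq, hΨs⟩ := h.exists_Ψ s
  have hΨΦ : ∀ n, Ψ (Φ n) = n := by
    intro n
    have h1 : Ψ.comp Φ = MonoidHom.id N := by
      apply h.hom_eq
      intro v
      show Ψ (Φ (x v)) = x v
      by_cases hv : v = s
      · subst hv
        rw [hΦs, hΨs]
        show (1 : N) * x v * (1 : N)⁻¹ = x v
        group
      · have h2 := hΦq ⟨x v, mem_par hv⟩
        have h3 : Φ (x v) = SemidirectProduct.inr ⟨x v, mem_par hv⟩ := h2
        rw [h3, hΨq]
    exact DFunLike.congr_fun h1 n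
  have hΦΨ : ∀ e : Sd (Xs Γ x s) (Qs x s), Φ (Ψ e) = e := by
    have h1 : Φ.comp Ψ = MonoidHom.id _ := by
      apply SemidirectProduct.hom_ext
      · apply FreeGroup.ext_hom
        intro c
        obtain ⟨q, rfl⟩ := QuotientGroup.mk_surjective c
        show Φ (Ψ (SemidirectProduct.inl (FreeGroup.of (QuotientGroup.mk q : Xs Γ x s)))) =
          SemidirectProduct.inl (FreeGroup.of (QuotientGroup.mk q : Xs Γ x s))
        rw [hΨs, map_mul, map_mul, map_inv, hΦs, hΦq, Pool.Agent.Y961.FJ.conj_inr]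
        congr 1
        show FreeGroup.of (QuotientGroup.mk (q * 1) : Xs Γ x s) = _
        rw [mul_one]
      · ext q : 1
        show Φ (Ψ (SemidirectProduct.inr q)) = SemidirectProduct.inr q
        rw [hΨq, hΦq]
    intro e
    exact DFunLike.congr_fun h1 e
  have hg' : ∀ n : Sd (Xs Γ x s) (Qs x s), (n⁻¹ * Φ g * n).left ≠ 1 := by
    intro n hn
    apply hg
    refine ⟨Ψ n, ?_⟩
    have h1 : n⁻¹ * Φ g * n = SemidirectProduct.inr (n⁻¹ * Φ g * n).right := by
      apply SemidirectProduct.ext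
      · rw [hn, SemidirectProduct.left_inr]
      · rw [SemidirectProduct.right_inr]
    have h2 := congrArg Ψ h1
    rw [map_mul, map_mul, map_inv, hΨΦ, hΨq] at h2
    rw [h2]
    exact (n⁻¹ * Φ g * n).right.2
  obtain ⟨a, b, n, c, ha, hl, hc⟩ := Run7.h370.RA.hyp (Φ g) (Φ k) (by rw [← map_mul, hgk, map_mul]) hg'
  refine ⟨a, b, ha, ?_⟩
  obtain ⟨q, rfl⟩ := QuotientGroup.mk_surjective c
  obtain ⟨e, he⟩ : ∃ e, e = n⁻¹ * (Φ k ^ a * Φ g ^ b) * n := ⟨_, rfl⟩
  rw [← he] at hl hc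
  have h1 : e = SemidirectProduct.inr e.right := by
    apply SemidirectProduct.ext
    · rw [hl, SemidirectProduct.left_inr]
    · rw [SemidirectProduct.right_inr]
  have h2 : Ψ e = e.right := by rw [h1, hΨq, SemidirectProduct.right_inr]
  have h3 : Ψ e = (Ψ n)⁻¹ * (k ^ a * g ^ b) * Ψ n := by
    rw [he, map_mul, map_mul, map_mul, map_inv, map_pow, map_zpow, hΨΦ, hΨΦ]
  refine ⟨Ψ n * q, ?_⟩
  have h4 : (Ψ n * (q : N))⁻¹ * (k ^ a * g ^ b) * (Ψ n * q) = (q : N)⁻¹ * e.right * q := by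
    rw [← h2, h3]
    group
  rw [h4]
  have h5 : (QuotientGroup.mk (e.right * q) : Xs Γ x s) = QuotientGroup.mk q := hc
  have h6 := QuotientGroup.eq.1 h5.symm
  have h7 : ((q⁻¹ * (e.right * q) : Qs x s) : N) ∈ Ls Γ x s := h6
  have h8 : ((q⁻¹ * (e.right * q) : Qs x s) : N) = (q : N)⁻¹ * e.right * q := by
    show (q : N)⁻¹ * (e.right * q) = _
    group
  rw [h8] at h7
  exact h7

end model

end Run7.h370.RA
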