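import Pool.Agent.Run7.h370.RA.Hyp

/-!
# Right-angled Artin groups: parabolic subgroups, homology classes, hyperbolic elements
-/

set_option autoImplicit false

namespace Run7.h370.RA

open Pool.Agent.Y110.FJ (permAut)

/-- `N` is the right-angled Artin group of the graph `Γ` on the elements `x v` -/
structure Raag {V N : Type} [Group N] (Γ : SimpleGraph V) (x : V → N) : Prop where
  gen : Subgroup.closure (Set.range x) = ⊤
  comm : ∀ v w, Γ.Adj v w → x v * x w = x w * x v
  univ : ∀ (H : Type) [Group H] (y : V → H), (∀ v w, Γ.Adj v w → y v * y w = y w * y v) →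
    ∃ φ : N →* H, ∀ v, φ (x v) = y v

/-- the parabolic subgroup of a set of vertices -/
def par {V N : Type} [Group N] (x : V → N) (T : Set V) : Subgroup N := Subgroup.closure (x '' T)

section basic

variable {V N : Type} [Group N] {Γ : SimpleGraph V} {x : V → N}

theorem mem_par {T : Set V} {v : V} (hv : v ∈ T) : x v ∈ par x T :=
  Subgroup.subset_closure ⟨v, hv, rfl⟩

theorem par_mono {S T : Set V} (h : S ⊆ T) : par x S ≤ par x T :=
  Subgroup.closure_mono (Set.image_mono h)

theorem par_le {T : Set V} {M : Subgroup N} (h : ∀ v ∈ T, x v ∈ M) : par x T ≤ M := by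
  unfold par
  rw [Subgroup.closure_le]
  rintro _ ⟨v, hv, rfl⟩
  exact h v hv

theorem Raag.par_univ (h : Raag Γ x) : par x Set.univ = ⊤ := by
  unfold par
  rw [Set.image_univ]
  exact h.gen

theorem Raag.hom_eq (h : Raag Γ x) {H : Type} [Group H] {f g : N →* H}
    (hfg : ∀ v, f (x v) = g (x v)) : f = g := by
  apply MonoidHom.eq_of_eqOn_dense h.gen
  rintro _ ⟨v, rfl⟩
  exact hfg v

theorem par_hom_eq {H : Type} [Group H] {T : Set V} {f g : N →* H}
    (hfg : ∀ v ∈ T, f (x v) = g (x v)) {a : N} (ha : a ∈ par x T) : f a = g a := by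
  have h1 : par x T ≤ f.eqLocus g := par_le hfg
  exact h1 ha

theorem Raag.mem_all (h : Raag Γ x) {M : Subgroup N} (hM : ∀ v, x v ∈ M) (a : N) : a ∈ M := by
  have h1 : par x Set.univ ≤ M := par_le fun v _ => hM v
  rw [h.par_univ] at h1
  exact h1 trivial

/-- retractions -/
theorem Raag.ret (h : Raag Γ x) (T : Set V) : ∃ r : N →* N, (∀ v ∈ T, r (x v) = x v) ∧
    (∀ v, v ∉ T → r (x v) = 1) := by
  classical
  obtain ⟨r, hr⟩ := h.univ N (fun v => if v ∈ T then x v else 1) (by
    intro v w hvw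
    by_cases hv : v ∈ T <;> by_cases hw : w ∈ T
    · simp only [if_pos hv, if_pos hw]
      exact h.comm v w hvw
    · simp only [if_neg hw, mul_one, one_mul]
    · simp only [if_neg hv, mul_one, one_mul]
    · simp only [if_neg hw, mul_one, one_mul])
  exact ⟨r, fun v hv => by rw [hr, if_pos hv], fun v hv => by rw [hr, if_neg hv]⟩

theorem ret_id {T : Set V} {r : N →* N} (hr : ∀ v ∈ T, r (x v) = x v) {a : N}
    (ha : a ∈ par x T) : r a = a :=
  par_hom_eq (f := r) (g := MonoidHom.id N) hr ha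

/-- conjugation into parabolic subgroups -/
def CI (x : V → N) (T : Set V) (g : N) : Prop := ∃ n : N, n⁻¹ * g * n ∈ par x T

/-- supports -/
theorem Raag.supp [Finite V] (h : Raag Γ x) (g : N) : ∃ T : Set V, CI x T g ∧
    ∀ s ∈ T, ¬ CI x {s}ᶜ g := by
  classical
  obtain ⟨T, hT, hmin⟩ : ∃ T : Set V, CI x T g ∧ ∀ T' : Set V, CI x T' g → T.ncard ≤ T'.ncard := by
    obtain ⟨T, hT⟩ : ∃ T : {T : Set V // CI x T g}, ∀ T' : {T : Set V // CI x T g},
        T.1.ncard ≤ T'.1.ncard := by
      have : Nonempty {T : Set V // CI x T g} := ⟨⟨Set.univ, 1, by rw [h.par_univ]; trivial⟩⟩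
      exact ⟨Function.argmin (fun T : {T : Set V // CI x T g} => T.1.ncard),
        fun m => Function.argmin_le (fun T : {T : Set V // CI x T g} => T.1.ncard) m⟩
    exact ⟨T.1, T.2, fun T' hT' => hT ⟨T', hT'⟩⟩
  refine ⟨T, hT, ?_⟩
  rintro s hs ⟨n, hn⟩
  obtain ⟨m, hm⟩ := hT
  obtain ⟨r, hr1, hr2⟩ := h.ret T
  have h1 : r (n⁻¹ * g * n) ∈ par x (T \ {s}) := by
    have h2 : par x {s}ᶜ ≤ (par x (T \ {s})).comap r := by
      apply par_le
      intro v hv
      rw [Subgroup.mem_comap]
      by_cases hvT : v ∈ T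
      · rw [hr1 v hvT]
        exact mem_par ⟨hvT, hv⟩
      · rw [hr2 v hvT]
        exact Subgroup.one_mem _
    exact h2 hn
  have h3 : CI x (T \ {s}) g := by
    refine ⟨m * r (m⁻¹ * n), ?_⟩
    have h4 : (m * r (m⁻¹ * n))⁻¹ * g * (m * r (m⁻¹ * n)) = r (n⁻¹ * g * n) := by
      have h5 : r (m⁻¹ * g * m) = m⁻¹ * g * m := ret_id hr1 hm
      have h6 : r (n⁻¹ * g * n) = (r (m⁻¹ * n))⁻¹ * r (m⁻¹ * g * m) * r (m⁻¹ * n) := by
        rw [← map_inv, ← map_mul, ← map_mul]
        congr 1
        group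
      rw [h6, h5]
      group
    rw [h4]
    exact h1
  have h7 := hmin _ h3
  have h8 : (T \ {s}).ncard < T.ncard :=
    Set.ncard_lt_ncard ⟨Set.sdiff_subset, fun h => (h hs).2 rfl⟩ (Set.toFinite T)
  omega

end basic

section homology

variable {V N : Type} [Group N] {Γ : SimpleGraph V} {x : V → N}

open Classical in
/-- the basis vectors -/
noncomputable def ev (v : V) : V → ℚ := Pi.single v 1

theorem ev_same (v : V) : ev v v = 1 := by
  classical
  unfold ev
  exact Pi.single_eq_same _ _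

theorem ev_ne {v w : V} (h : w ≠ v) : ev v w = 0 := by
  classical
  unfold ev
  exact Pi.single_eq_of_ne h _

theorem Raag.exists_cl (h : Raag Γ x) : ∃ φ : N →* Multiplicative (V → ℚ),
    ∀ v, φ (x v) = Multiplicative.ofAdd (ev v) :=
  h.univ _ (fun v => Multiplicative.ofAdd (ev v)) (fun v w _ => mul_comm _ _)

/-- the homology class -/
noncomputable def Raag.cl (h : Raag Γ x) (g : N) : V → ℚ :=
  Multiplicative.toAdd (h.exists_cl.choose g)

theorem Raag.cl_x (h : Raag Γ x) (v : V) : h.cl (x v) = ev v :=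
  congrArg Multiplicative.toAdd (h.exists_cl.choose_spec v)

theorem Raag.cl_mul (h : Raag Γ x) (g k : N) : h.cl (g * k) = h.cl g + h.cl k := by
  unfold Raag.cl
  rw [map_mul]
  rfl

theorem Raag.cl_one (h : Raag Γ x) : h.cl 1 = 0 := by
  unfold Raag.cl
  rw [map_one]
  rfl

theorem Raag.cl_inv (h : Raag Γ x) (g : N) : h.cl g⁻¹ = - h.cl g := by
  unfold Raag.cl
  rw [map_inv]
  rfl

theorem Raag.cl_pow (h : Raag Γ x) (g : N) (n : ℕ) : h.cl (g ^ n) = (n : ℚ) • h.cl g := by
  unfold Raag.cl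
  rw [map_pow, toAdd_pow, Nat.cast_smul_eq_nsmul]

theorem Raag.cl_zpow (h : Raag Γ x) (g : N) (n : ℤ) : h.cl (g ^ n) = (n : ℚ) • h.cl g := by
  unfold Raag.cl
  rw [map_zpow, toAdd_zpow, Int.cast_smul_eq_zsmul]

theorem Raag.cl_conj (h : Raag Γ x) (g n : N) : h.cl (n⁻¹ * g * n) = h.cl g := by
  rw [h.cl_mul, h.cl_mul, h.cl_inv]
  abel

/-- the vectors supported in a set -/
def SV (T : Set V) : Submodule ℚ (V → ℚ) where
  carrier := {f | ∀ w, w ∉ T → f w = 0}
  add_mem' := by
    intro a b ha hb w hw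
    rw [Pi.add_apply, ha w hw, hb w hw, add_zero]
  zero_mem' := fun w _ => rfl
  smul_mem' := by
    intro c a ha w hw
    rw [Pi.smul_apply, ha w hw, smul_zero]

theorem mem_SV {T : Set V} {f : V → ℚ} : f ∈ SV T ↔ ∀ w, w ∉ T → f w = 0 := Iff.rfl

theorem SV_mono {S T : Set V} (h : S ⊆ T) : SV S ≤ SV T := fun _ hf w hw => hf w (fun h' => hw (h h'))

theorem ev_mem {T : Set V} {v : V} (hv : v ∈ T) : ev v ∈ SV T := by
  intro w hw
  apply ev_ne
  rintro rfl
  exact hw hv

theorem ev_mem_iff {T : Set V} {v : V} : ev v ∈ SV T ↔ v ∈ T := by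
  refine ⟨fun h => ?_, ev_mem⟩
  by_contra hv
  have h1 := h v hv
  rw [ev_same] at h1
  exact one_ne_zero h1

theorem SV_le_iff {S T : Set V} : SV S ≤ SV T ↔ S ⊆ T :=
  ⟨fun h v hv => ev_mem_iff.1 (h (ev_mem hv)), SV_mono⟩

theorem Raag.cl_par (h : Raag Γ x) {T : Set V} {g : N} (hg : g ∈ par x T) : h.cl g ∈ SV T := by
  induction hg using Subgroup.closure_induction with
  | mem g hg =>
    obtain ⟨v, hv, rfl⟩ := hg
    rw [h.cl_x]
    exact ev_mem hv
  | one => rw [h.cl_one]; exact Submodule.zero_mem _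
  | mul a b _ _ ha hb => rw [h.cl_mul]; exact Submodule.add_mem _ ha hb
  | inv a _ ha => rw [h.cl_inv]; exact Submodule.neg_mem _ ha

theorem Raag.cl_CI (h : Raag Γ x) {T : Set V} {g : N} (hg : CI x T g) : h.cl g ∈ SV T := by
  obtain ⟨n, hn⟩ := hg
  rw [← h.cl_conj g n]
  exact h.cl_par hn

theorem SV_span [Finite V] (T : Set V) : SV T = Submodule.span ℚ (ev '' T) := by
  classical
  have := Fintype.ofFinite V
  apply le_antisymm
  · intro f hf
    have h1 : f = ∑ v, f v • ev v := by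
      funext w
      rw [Finset.sum_apply, Finset.sum_eq_single w]
      · rw [Pi.smul_apply, ev_same, smul_eq_mul, mul_one]
      · intro v _ hvw
        rw [Pi.smul_apply, ev_ne hvw.symm, smul_zero]
      · intro hw
        exact absurd (Finset.mem_univ w) hw
    rw [h1]
    apply Submodule.sum_mem
    intro v _
    by_cases hv : v ∈ T
    · exact Submodule.smul_mem _ _ (Submodule.subset_span ⟨v, hv, rfl⟩)
    · rw [hf v hv, zero_smul]
      exact Submodule.zero_mem _
  · rw [Submodule.span_le]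
    rintro _ ⟨v, hv, rfl⟩
    exact ev_mem hv

theorem finrank_SV [Finite V] (T : Set V) : Module.finrank ℚ (SV T) = T.ncard := by
  classical
  have := Fintype.ofFinite V
  have hli : LinearIndependent ℚ (fun v : T => (ev v.1 : V → ℚ)) := by
    have h1 : LinearIndependent ℚ (fun v : V => (ev v : V → ℚ)) := by
      have := (Pi.basisFun ℚ V).linearIndependent
      convert this using 1
      funext v
      rw [Pi.basisFun_apply]
      rfl
    exact h1.comp _ Subtype.val_injective
  have : Fintype T := Fintype.ofFinite T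
  have h2 := finrank_span_eq_card hli
  have h3 : Set.range (fun v : T => (ev v.1 : V → ℚ)) = ev '' T := by
    ext f
    simp [Set.mem_image]
  rw [h3, ← SV_span] at h2
  rw [h2, ← Nat.card_eq_fintype_card, Nat.card_coe_set_eq]

end homology

end Run7.h370.RA
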